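import Mathlib

/-! The one-sided maximal inequality for finite sequences (F. Riesz). -/

set_option autoImplicit false

namespace Pool.Agent.Y851.PU
open Finset

/-- some average of `f` to the left of `k` exceeds `t` -/
def Ld (f : ℕ → ℝ) (t : ℝ) (k : ℕ) : Prop := ∃ m : ℕ, 1 ≤ m ∧ m ≤ k ∧ t * m < ∑ j ∈ Ioc (k - m) k, f j

open Classical in
theorem leaders (f : ℕ → ℝ) (t : ℝ) (K : ℕ) :
    t * (((Icc 1 K).filter (Ld f t)).card : ℝ) ≤ ∑ j ∈ (Icc 1 K).filter (Ld f t), f j := by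
  induction K using Nat.strong_induction_on with
  | _ K ih =>
    rcases Nat.eq_zero_or_pos K with rfl | hK
    · simp
    by_cases hP : Ld f t K
    · obtain ⟨m, hm⟩ : ∃ m, m = Nat.find hP := ⟨_, rfl⟩
      obtain ⟨hm1, hm2, hm3⟩ := Nat.find_spec hP
      rw [← hm] at hm1 hm2 hm3
      have hmin : ∀ m' < m, ¬ (1 ≤ m' ∧ m' ≤ K ∧ t * m' < ∑ j ∈ Ioc (K - m') K, f j) := fun m' h => Nat.find_min hP (by rw [← hm]; exact h)
      have hblock : ∀ j, K - m < j → j ≤ K → Ld f t j := by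
        intro j hj1 hj2
        rcases Nat.eq_or_lt_of_le hj2 with rfl | hj3
        · exact hP
        · have h1 := hmin (K - j) (by omega)
          have h2 : ¬ t * ((K - j : ℕ) : ℝ) < ∑ i ∈ Ioc (K - (K - j)) K, f i := fun h => h1 ⟨by omega, by omega, h⟩
          have e1 : K - (K - j) = j := by omega
          rw [e1] at h2
          push Not at h2
          refine ⟨j - (K - m), by omega, by omega, ?_⟩
          have e2 : j - (j - (K - m)) = K - m := by omega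
          rw [e2]
          have h3 := sum_Ioc_consecutive f (show K - m ≤ j by omega) (show j ≤ K by omega)
          have c1 : ((j - (K - m) : ℕ) : ℝ) = j - ((K - m : ℕ) : ℝ) := by
            rw [Nat.cast_sub (by omega)]
          have c2 : ((K - m : ℕ) : ℝ) = K - m := by rw [Nat.cast_sub hm2]
          have c3 : ((K - j : ℕ) : ℝ) = K - j := by rw [Nat.cast_sub hj2]
          rw [c1, c2]
          rw [c3] at h2
          have e3 : t * ((j : ℝ) - (K - m)) = t * m - t * (K - j) := by ring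
          rw [e3]
          linarith only [h2, h3, hm3]
      have hsplit : (Icc 1 K).filter (Ld f t) = (Icc 1 (K - m)).filter (Ld f t) ∪ Ioc (K - m) K := by
        ext j
        rw [mem_filter, mem_union, mem_filter, mem_Icc, mem_Icc, mem_Ioc]
        constructor
        · rintro ⟨⟨h1, h2⟩, h3⟩
          by_cases h4 : j ≤ K - m
          · exact Or.inl ⟨⟨h1, h4⟩, h3⟩
          · exact Or.inr ⟨by omega, h2⟩
        · rintro (⟨⟨h1, h2⟩, h3⟩ | ⟨h1, h2⟩)
          · exact ⟨⟨h1, by omega⟩, h3⟩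
          · exact ⟨⟨by omega, h2⟩, hblock j h1 h2⟩
      have hdis : Disjoint ((Icc 1 (K - m)).filter (Ld f t)) (Ioc (K - m) K) := by
        rw [disjoint_left]
        intro j hj hj2
        rw [mem_filter, mem_Icc] at hj
        rw [mem_Ioc] at hj2
        omega
      rw [hsplit, card_union_of_disjoint hdis, sum_union hdis, Nat.card_Ioc]
      have e1 : K - (K - m) = m := by omega
      rw [e1]
      push_cast
      have h1 := ih (K - m) (by omega)
      linarith only [h1, hm3]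
    · have e : (Icc 1 K).filter (Ld f t) = (Icc 1 (K - 1)).filter (Ld f t) := by
        ext j
        rw [mem_filter, mem_filter, mem_Icc, mem_Icc]
        constructor
        · rintro ⟨⟨h1, h2⟩, h3⟩
          refine ⟨⟨h1, ?_⟩, h3⟩
          rcases Nat.eq_or_lt_of_le h2 with rfl | h4
          · exact absurd h3 hP
          · omega
        · rintro ⟨⟨h1, h2⟩, h3⟩
          exact ⟨⟨h1, by omega⟩, h3⟩
      rw [e]
      exact ih (K - 1) (by omega)

open Classical in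
/-- the weak type inequality -/
theorem maximal (f : ℕ → ℝ) (hf : ∀ k, 0 ≤ f k) (t : ℝ) (ht : 0 < t) (K : ℕ) (s : ℝ) (hs : ∑ k ∈ Icc 1 K, f k ≤ s) :
    (((Icc 1 K).filter (Ld f t)).card : ℝ) ≤ s / t := by
  rw [le_div_iff₀ ht, mul_comm]
  refine (leaders f t K).trans (le_trans ?_ hs)
  exact sum_le_sum_of_subset_of_nonneg (filter_subset _ _) fun k _ _ => hf k

lemma not_Ld {f : ℕ → ℝ} {t : ℝ} {k m : ℕ} (h : ¬ Ld f t k) (hm1 : 1 ≤ m) (hm2 : m ≤ k) : ∑ j ∈ Ioc (k - m) k, f j ≤ t * m := by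
  by_contra hcon
  push Not at hcon
  exact h ⟨m, hm1, hm2, hcon⟩

/-- number of integers in open intervals -/
lemma count_low (x R : ℝ) (hx : 0 ≤ x) (I : Finset ℕ) (hI : ∀ k : ℕ, x < k → (k : ℝ) < x + R → k ∈ I) :
    R - 1 ≤ ((I.filter (fun k : ℕ => x < k ∧ (k : ℝ) < x + R)).card : ℝ) := by
  have h1 : Ioc ⌊x⌋₊ (⌈x + R⌉₊ - 1) ⊆ I.filter (fun k : ℕ => x < k ∧ (k : ℝ) < x + R) := by
    intro k hk
    rw [mem_Ioc] at hk
    have g1 : x < k := (Nat.floor_lt hx).1 hk.1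
    have g2 : (k : ℝ) < x + R := by
      have : k < ⌈x + R⌉₊ := by omega
      exact Nat.lt_ceil.1 this
    rw [mem_filter]
    exact ⟨hI k g1 g2, g1, g2⟩
  have h2 := card_le_card h1
  rw [Nat.card_Ioc] at h2
  have h3 : ⌈x + R⌉₊ ≤ (I.filter (fun k : ℕ => x < k ∧ (k : ℝ) < x + R)).card + 1 + ⌊x⌋₊ := by omega
  have h4 : (⌈x + R⌉₊ : ℝ) ≤ ((I.filter (fun k : ℕ => x < k ∧ (k : ℝ) < x + R)).card : ℝ) + 1 + ⌊x⌋₊ := by exact_mod_cast h3
  have h5 := Nat.le_ceil (x + R)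
  have h6 := Nat.floor_le hx
  linarith only [h4, h5, h6]

lemma count_up (x R : ℝ) (hx : 0 ≤ x) (hR : 0 ≤ R) (I : Finset ℕ) :
    ((I.filter (fun k : ℕ => x < k ∧ (k : ℝ) < x + R)).card : ℝ) ≤ R + 1 := by
  have h1 : I.filter (fun k : ℕ => x < k ∧ (k : ℝ) < x + R) ⊆ Ioc ⌊x⌋₊ (⌈x + R⌉₊ - 1) := by
    intro k hk
    rw [mem_filter] at hk
    rw [mem_Ioc]
    have g1 : ⌊x⌋₊ < k := (Nat.floor_lt hx).2 hk.2.1
    have g2 : k < ⌈x + R⌉₊ := Nat.lt_ceil.2 hk.2.2
    omega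
  have h2 := card_le_card h1
  rw [Nat.card_Ioc] at h2
  by_cases hc : ⌊x⌋₊ + 1 ≤ ⌈x + R⌉₊
  · have h3 : (I.filter (fun k : ℕ => x < k ∧ (k : ℝ) < x + R)).card + 1 + ⌊x⌋₊ ≤ ⌈x + R⌉₊ := by omega
    have h4 : ((I.filter (fun k : ℕ => x < k ∧ (k : ℝ) < x + R)).card : ℝ) + 1 + ⌊x⌋₊ ≤ (⌈x + R⌉₊ : ℝ) := by exact_mod_cast h3
    have h5 := Nat.ceil_lt_add_one (show 0 ≤ x + R by linarith)
    have h6 := Nat.lt_floor_add_one x
    linarith only [h4, h5, h6]
  · have h3 : (I.filter (fun k : ℕ => x < k ∧ (k : ℝ) < x + R)).card = 0 := by omega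
    rw [h3, Nat.cast_zero]
    linarith only [hR]

end Pool.Agent.Y851.PU
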