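import Pool.Agent.Y851.PU.Q1
import Pool.Agent.Y851.PT.P5

/-! Long windows from short windows. -/

set_option autoImplicit false

namespace Pool.Agent.Y851.PU
open Finset
open Pool.Agent.Y851.PT

lemma card_eq_sum {H x : ℝ} (P : Finset ℕ) (h : PH H x ⊆ P) : ((PH H x).card : ℝ) = ∑ p ∈ P, (if p ∈ PH H x then (1 : ℝ) else 0) := by
  rw [← sum_filter, sum_const, nsmul_eq_mul, mul_one]
  congr 2
  ext p
  rw [mem_filter]
  exact ⟨fun hp => ⟨h hp, hp⟩, fun hp => hp.2⟩

/-- upper bound -/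
lemma dc_up {a h l H y R : ℝ} (ha : 0 < a) (hl : 0 < l) (hy : 0 ≤ y) (hR : h = R * (a * l)) (I : Finset ℕ)
    (hI : ∀ k : ℕ, y - H / a < k * l → (k : ℝ) * l < y + h / a → k ∈ I) :
    (R - 1) * ((PH H (a * y)).card : ℝ) ≤ ∑ k ∈ I, ((PH h (a * (k * l))).card : ℝ) := by
  classical
  have hal : 0 < a * l := mul_pos ha hl
  have h1 : ∀ k ∈ I, ∑ p ∈ PH H (a * y), (if p ∈ PH h (a * (k * l)) then (1 : ℝ) else 0) ≤ ((PH h (a * (k * l))).card : ℝ) := by
    intro k _
    rw [← sum_filter, sum_const, nsmul_eq_mul, mul_one]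
    apply Nat.cast_le.2
    apply card_le_card
    intro p hp
    rw [mem_filter] at hp
    exact hp.2
  refine le_trans ?_ (sum_le_sum h1)
  rw [sum_comm]
  have h2 : ∀ p ∈ PH H (a * y), R - 1 ≤ ∑ k ∈ I, (if p ∈ PH h (a * (k * l)) then (1 : ℝ) else 0) := by
    intro p hp
    rw [mem_PH (mul_nonneg ha.le hy)] at hp
    obtain ⟨hp1, hp2, hp3⟩ := hp
    have hp0 : (0 : ℝ) ≤ p / (a * l) := div_nonneg (Nat.cast_nonneg _) hal.le
    have h3 := count_low (p / (a * l)) R hp0 I (by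
      intro k hk1 hk2
      apply hI
      · rw [div_lt_iff₀ hal] at hk1
        rw [sub_lt_iff_lt_add, ← sub_lt_iff_lt_add', lt_div_iff₀ ha]
        have e : (y - (k : ℝ) * l) * a = a * y - k * (a * l) := by ring
        rw [e]; linarith only [hk1, hp2]
      · have e : (k : ℝ) * l - y = (k * (a * l) - a * y) / a := by field_simp
        have h4 : (k : ℝ) * (a * l) < p + h := by
          have : (k : ℝ) * (a * l) < (p / (a * l) + R) * (a * l) := mul_lt_mul_of_pos_right hk2 hal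
          have e2 : ((p : ℝ) / (a * l) + R) * (a * l) = p + R * (a * l) := by field_simp
          rw [e2] at this
          rw [hR]; exact this
        have h5 : (k : ℝ) * l - y < h / a := by
          rw [e]
          apply div_lt_div_of_pos_right _ ha
          linarith only [h4, hp3]
        linarith only [h5])
    refine h3.trans (le_of_eq ?_)
    rw [← sum_filter, sum_const, nsmul_eq_mul, mul_one]
    congr 2
    apply filter_congr
    intro k _
    have hk0 : 0 ≤ a * ((k : ℝ) * l) := by positivity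
    rw [mem_PH hk0, div_lt_iff₀ hal]
    have e2 : (k : ℝ) < p / (a * l) + R ↔ (k : ℝ) * (a * l) < p + h := by
      rw [← mul_lt_mul_iff_left₀ hal]
      have e3 : ((p : ℝ) / (a * l) + R) * (a * l) = p + R * (a * l) := by field_simp
      rw [e3, hR]
    rw [e2]
    have e4 : a * ((k : ℝ) * l) = k * (a * l) := by ring
    rw [e4]
    constructor
    · rintro ⟨g1, g2⟩
      exact ⟨hp1, by linarith only [g2], g1⟩
    · rintro ⟨_, g1, g2⟩
      exact ⟨g2, by linarith only [g1]⟩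
  have h3 := sum_le_sum h2
  rw [sum_const, nsmul_eq_mul, mul_comm] at h3
  exact h3

/-- lower bound -/
lemma dc_low {a h l H y R : ℝ} (ha : 0 < a) (hl : 0 < l) (hy : 0 ≤ y) (hR : h = R * (a * l)) (hR0 : 0 ≤ R) (I : Finset ℕ)
    (hI : ∀ k ∈ I, y - (H - h) / a ≤ k * l ∧ (k : ℝ) * l ≤ y) :
    ∑ k ∈ I, ((PH h (a * (k * l))).card : ℝ) ≤ (R + 1) * ((PH H (a * y)).card : ℝ) := by
  classical
  have hal : 0 < a * l := mul_pos ha hl
  have hsub : ∀ k ∈ I, PH h (a * (k * l)) ⊆ PH H (a * y) := by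
    intro k hk p hp
    have hk0 : 0 ≤ a * ((k : ℝ) * l) := by positivity
    rw [mem_PH hk0] at hp
    rw [mem_PH (mul_nonneg ha.le hy)]
    obtain ⟨g1, g2⟩ := hI k hk
    refine ⟨hp.1, ?_, ?_⟩
    · have h1 : a * (y - (H - h) / a) ≤ a * (k * l) := mul_le_mul_of_nonneg_left g1 ha.le
      have e : a * (y - (H - h) / a) = a * y - (H - h) := by field_simp
      rw [e] at h1
      linarith only [h1, hp.2.1]
    · have h1 : a * ((k : ℝ) * l) ≤ a * y := mul_le_mul_of_nonneg_left g2 ha.le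
      linarith only [h1, hp.2.2]
  rw [sum_congr rfl fun k hk => card_eq_sum (PH H (a * y)) (hsub k hk), sum_comm]
  have h2 : ∀ p ∈ PH H (a * y), ∑ k ∈ I, (if p ∈ PH h (a * (k * l)) then (1 : ℝ) else 0) ≤ R + 1 := by
    intro p _
    have hp0 : (0 : ℝ) ≤ p / (a * l) := div_nonneg (Nat.cast_nonneg _) hal.le
    refine le_trans ?_ (count_up (p / (a * l)) R hp0 hR0 I)
    rw [← sum_filter, sum_const, nsmul_eq_mul, mul_one]
    apply Nat.cast_le.2
    apply card_le_card
    intro k hk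
    rw [mem_filter] at hk ⊢
    refine ⟨hk.1, ?_⟩
    have hk0 : 0 ≤ a * ((k : ℝ) * l) := by positivity
    have hp := hk.2
    rw [mem_PH hk0] at hp
    have e4 : a * ((k : ℝ) * l) = k * (a * l) := by ring
    rw [e4] at hp
    constructor
    · rw [div_lt_iff₀ hal]; exact hp.2.2
    · rw [← mul_lt_mul_iff_left₀ hal]
      have e3 : ((p : ℝ) / (a * l) + R) * (a * l) = p + R * (a * l) := by field_simp
      rw [e3, ← hR]
      linarith only [hp.2.1]
  refine (sum_le_sum h2).trans (le_of_eq ?_)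
  rw [sum_const, nsmul_eq_mul, mul_comm]

lemma ZH_mul {h x : ℝ} (hh : 0 < h) : h * ZH h x = ((PH h x).card : ℝ) * Real.log x := by
  unfold ZH
  field_simp

/-- densities, upper bound -/
lemma D_up {a h l H y R η : ℝ} (ha : 0 < a) (hl : 0 < l) (hy : 0 ≤ y) (hH : 0 < H) (hR : h = R * (a * l)) (hη : 0 < η) (hη1 : η < 1)
    (hR1 : 1 / η ≤ R) (I : Finset ℕ) (hI : ∀ k : ℕ, y - H / a < k * l → (k : ℝ) * l < y + h / a → k ∈ I)
    (hlog0 : 0 ≤ Real.log (a * y)) (hlog : ∀ k ∈ I, Real.log (a * y) ≤ (1 + η) * Real.log (a * (k * l))) :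
    ZH H (a * y) ≤ (1 + η) / (1 - η) * (a * l / H) * ∑ k ∈ I, ZH h (a * (k * l)) := by
  have hal : 0 < a * l := mul_pos ha hl
  have hη0 : 0 < 1 - η := by linarith only [hη1]
  have hRpos : 0 < R := lt_of_lt_of_le (by positivity) hR1
  have hRη : 1 ≤ η * R := by
    rw [div_le_iff₀ hη] at hR1
    linarith only [hR1]
  have hh : 0 < h := by rw [hR]; positivity
  have h1 := dc_up ha hl hy hR I hI
  -- (R-1) H Z ≤ (1+η) h Σ Z
  have h2 : (R - 1) * (H * ZH H (a * y)) ≤ (1 + η) * (h * ∑ k ∈ I, ZH h (a * (k * l))) := by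
    rw [ZH_mul hH, mul_sum, mul_sum]
    calc (R - 1) * (((PH H (a * y)).card : ℝ) * Real.log (a * y)) = (R - 1) * ((PH H (a * y)).card : ℝ) * Real.log (a * y) := by ring
      _ ≤ (∑ k ∈ I, ((PH h (a * (k * l))).card : ℝ)) * Real.log (a * y) := mul_le_mul_of_nonneg_right h1 hlog0
      _ = ∑ k ∈ I, ((PH h (a * (k * l))).card : ℝ) * Real.log (a * y) := sum_mul _ _ _
      _ ≤ ∑ k ∈ I, (1 + η) * (h * ZH h (a * (k * l))) := by
        apply sum_le_sum
        intro k hk
        rw [ZH_mul hh]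
        calc ((PH h (a * (k * l))).card : ℝ) * Real.log (a * y) ≤ ((PH h (a * (k * l))).card : ℝ) * ((1 + η) * Real.log (a * (k * l))) :=
              mul_le_mul_of_nonneg_left (hlog k hk) (Nat.cast_nonneg _)
          _ = _ := by ring
  have hZs : 0 ≤ ∑ k ∈ I, ZH h (a * (k * l)) := sum_nonneg fun k _ => ZH_nonneg hh.le _
  have hZ := ZH_nonneg hH.le (a * y)
  -- (1-η) R ≤ R - 1
  have h3 : (1 - η) * R ≤ R - 1 := by
    have : (1 - η) * R = R - η * R := by ring
    linarith only [this, hRη]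
  have h4 : (1 - η) * R * (H * ZH H (a * y)) ≤ (1 + η) * (R * (a * l) * ∑ k ∈ I, ZH h (a * (k * l))) := by
    rw [hR] at h2
    rw [hR]
    exact (mul_le_mul_of_nonneg_right h3 (mul_nonneg hH.le hZ)).trans h2
  have h5 : ((1 - η) * R * H) * ZH H (a * y) ≤ ((1 - η) * R * H) * ((1 + η) / (1 - η) * (a * l / H) * ∑ k ∈ I, ZH h (a * (k * l))) := by
    have e1 : ((1 - η) * R * H) * ((1 + η) / (1 - η) * (a * l / H) * ∑ k ∈ I, ZH h (a * (k * l))) =
        (1 + η) * (R * (a * l) * ∑ k ∈ I, ZH h (a * (k * l))) := by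
      field_simp
    rw [e1]
    refine le_trans (le_of_eq ?_) h4
    ring
  exact le_of_mul_le_mul_left h5 (by positivity)

/-- densities, lower bound -/
lemma D_low {a h l H y R η : ℝ} (ha : 0 < a) (hl : 0 < l) (hy : 0 ≤ y) (hH : 0 < H) (hR : h = R * (a * l)) (hη : 0 < η)
    (hR1 : 1 / η ≤ R) (I : Finset ℕ) (hI : ∀ k ∈ I, y - (H - h) / a ≤ k * l ∧ (k : ℝ) * l ≤ y) (hlog0 : 0 ≤ Real.log (a * y)) :
    1 / (1 + η) * (a * l / H) * ∑ k ∈ I, ZH h (a * (k * l)) ≤ ZH H (a * y) := by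
  have hal : 0 < a * l := mul_pos ha hl
  have hRpos : 0 < R := lt_of_lt_of_le (by positivity) hR1
  have hRη : 1 ≤ η * R := by
    rw [div_le_iff₀ hη] at hR1
    linarith only [hR1]
  have hh : 0 < h := by rw [hR]; positivity
  have h1 := dc_low ha hl hy hR hRpos.le I hI
  have h2 : h * ∑ k ∈ I, ZH h (a * (k * l)) ≤ (R + 1) * (H * ZH H (a * y)) := by
    rw [ZH_mul hH, mul_sum]
    calc ∑ k ∈ I, h * ZH h (a * (k * l)) ≤ ∑ k ∈ I, ((PH h (a * (k * l))).card : ℝ) * Real.log (a * y) := by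
          apply sum_le_sum
          intro k hk
          rw [ZH_mul hh]
          by_cases hx : a * ((k : ℝ) * l) < 2
          · rw [PH_empty hx]; simp
          · push Not at hx
            apply mul_le_mul_of_nonneg_left _ (Nat.cast_nonneg _)
            apply Real.log_le_log (by linarith only [hx])
            exact mul_le_mul_of_nonneg_left (hI k hk).2 ha.le
      _ = (∑ k ∈ I, ((PH h (a * (k * l))).card : ℝ)) * Real.log (a * y) := (sum_mul _ _ _).symm
      _ ≤ (R + 1) * ((PH H (a * y)).card : ℝ) * Real.log (a * y) := mul_le_mul_of_nonneg_right h1 hlog0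
      _ = _ := by ring
  have hZs : 0 ≤ ∑ k ∈ I, ZH h (a * (k * l)) := sum_nonneg fun k _ => ZH_nonneg hh.le _
  have hZ := ZH_nonneg hH.le (a * y)
  have h3 : R + 1 ≤ (1 + η) * R := by
    have : (1 + η) * R = R + η * R := by ring
    linarith only [this, hRη]
  have h4 : R * (a * l) * ∑ k ∈ I, ZH h (a * (k * l)) ≤ (1 + η) * R * (H * ZH H (a * y)) := by
    rw [hR] at h2
    rw [hR]
    exact h2.trans (mul_le_mul_of_nonneg_right h3 (mul_nonneg hH.le hZ))
  have h5 : ((1 + η) * R * H) * (1 / (1 + η) * (a * l / H) * ∑ k ∈ I, ZH h (a * (k * l))) ≤ ((1 + η) * R * H) * ZH H (a * y) := by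
    have e1 : ((1 + η) * R * H) * (1 / (1 + η) * (a * l / H) * ∑ k ∈ I, ZH h (a * (k * l))) =
        R * (a * l) * ∑ k ∈ I, ZH h (a * (k * l)) := by
      field_simp
    rw [e1]
    refine h4.trans (le_of_eq ?_)
    ring
  exact le_of_mul_le_mul_left h5 (by positivity)

end Pool.Agent.Y851.PU
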