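import Pool.Agent.Y851.PU.Q2

/-! One class of dilations at a good point. -/

set_option autoImplicit false

namespace Pool.Agent.Y851.PU
open Finset
open Pool.Agent.Y851.PT

/-- the geometry of a point `y` with respect to the net `k l` -/
structure Geo (P β η ζ l h H y : ℝ) (k1 Q : ℕ) : Prop where
  hP : 0 < P
  hβ : 0 < β
  hη : 0 < η
  hη1 : η ≤ 1 / 4
  hζ : 0 < ζ
  hl : 0 < l
  hh : h = P * l / η
  hH : P * l / η ^ 2 ≤ H
  hk1a : y + h / (β * P) ≤ k1 * l
  hk1b : (k1 : ℝ) * l ≤ y + (Q + 1) * l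
  hQ : (Q : ℝ) + 2 ≤ ζ / η ^ 2
  hyH : (1 + ζ) * (H / (β * P)) ≤ y / 2
  hlogy : Real.log 2 * (1 + η) ≤ η * Real.log (β * P * y)

variable {P β η ζ l h H y : ℝ} {k1 Q : ℕ}

lemma Geo.h0 (g : Geo P β η ζ l h H y k1 Q) : 0 < h := by
  rw [g.hh]; exact div_pos (mul_pos g.hP g.hl) g.hη

lemma Geo.H0 (g : Geo P β η ζ l h H y k1 Q) : 0 < H :=
  lt_of_lt_of_le (div_pos (mul_pos g.hP g.hl) (pow_pos g.hη 2)) g.hH

lemma Geo.hHη (g : Geo P β η ζ l h H y k1 Q) : h ≤ η * H := by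
  have h1 : η * (P * l / η ^ 2) = h := by
    rw [g.hh]
    have := g.hη
    field_simp
  rw [← h1]
  exact mul_le_mul_of_nonneg_left g.hH g.hη.le

lemma Geo.y0 (g : Geo P β η ζ l h H y k1 Q) : 0 < y := by
  have h1 : 0 < (1 + ζ) * (H / (β * P)) := by
    have h2 := g.hζ
    have h3 := g.H0
    have h4 := g.hβ
    have h5 := g.hP
    positivity
  have := g.hyH
  linarith only [h1, this]

/-- the number of steps -/
noncomputable def mm (H α l : ℝ) (Q : ℕ) : ℕ := ⌊H / (α * l)⌋₊ + Q + 2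

lemma Geo.mm_le (g : Geo P β η ζ l h H y k1 Q) {α : ℝ} (hα : 0 < α) (hα2 : α ≤ P) :
    α * l / H * (mm H α l Q : ℝ) ≤ 1 + ζ := by
  have hH0 := g.H0
  have hl := g.hl
  have hαl : 0 < α * l := mul_pos hα hl
  have h1 : (mm H α l Q : ℝ) ≤ H / (α * l) + (Q + 2) := by
    unfold mm
    push_cast
    have := Nat.floor_le (div_nonneg hH0.le hαl.le)
    linarith only [this]
  have h2 : (Q : ℝ) + 2 ≤ ζ * (H / (α * l)) := by
    refine g.hQ.trans ?_
    rw [div_eq_mul_inv, ← one_div]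
    apply mul_le_mul_of_nonneg_left _ g.hζ.le
    rw [div_le_div_iff₀ (pow_pos g.hη 2) hαl, one_mul]
    have h3 := g.hH
    rw [div_le_iff₀ (pow_pos g.hη 2)] at h3
    refine le_trans ?_ h3
    exact mul_le_mul_of_nonneg_right hα2 hl.le
  calc α * l / H * (mm H α l Q : ℝ) ≤ α * l / H * ((1 + ζ) * (H / (α * l))) := by
        apply mul_le_mul_of_nonneg_left _ (div_nonneg hαl.le hH0.le)
        have e : (1 + ζ) * (H / (α * l)) = H / (α * l) + ζ * (H / (α * l)) := by ring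
        rw [e]; linarith only [h1, h2]
    _ = 1 + ζ := by field_simp

lemma Geo.mm_mul (g : Geo P β η ζ l h H y k1 Q) {α : ℝ} (hα1 : β * P ≤ α) (hα2 : α ≤ P) :
    (mm H α l Q : ℝ) * l ≤ y / 2 := by
  have hH0 := g.H0
  have hβP : 0 < β * P := mul_pos g.hβ g.hP
  have hα : 0 < α := lt_of_lt_of_le hβP hα1
  have h1 := g.mm_le hα hα2
  have h2 : (mm H α l Q : ℝ) * l = (α * l / H * (mm H α l Q : ℝ)) * (H / α) := by field_simp
  rw [h2]
  calc (α * l / H * (mm H α l Q : ℝ)) * (H / α) ≤ (1 + ζ) * (H / α) := mul_le_mul_of_nonneg_right h1 (by positivity)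
    _ ≤ (1 + ζ) * (H / (β * P)) := by
      apply mul_le_mul_of_nonneg_left _ (by linarith only [g.hζ])
      exact div_le_div_of_nonneg_left hH0.le hβP hα1
    _ ≤ y / 2 := g.hyH

lemma Geo.y_le (g : Geo P β η ζ l h H y k1 Q) : y ≤ k1 * l := by
  have h1 := g.hk1a
  have h2 : 0 < h / (β * P) := div_pos g.h0 (mul_pos g.hβ g.hP)
  linarith only [h1, h2]

lemma Geo.mm_le_k1 (g : Geo P β η ζ l h H y k1 Q) {α : ℝ} (hα1 : β * P ≤ α) (hα2 : α ≤ P) : mm H α l Q ≤ k1 := by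
  have h1 := g.mm_mul hα1 hα2
  have h2 := g.y_le
  have h3 := g.y0
  have h4 : (mm H α l Q : ℝ) * l ≤ k1 * l := by linarith only [h1, h2, h3]
  exact_mod_cast le_of_mul_le_mul_right h4 g.hl

lemma Geo.mem (g : Geo P β η ζ l h H y k1 Q) {α : ℝ} (hα1 : β * P ≤ α) (hα2 : α ≤ P) {k : ℕ} (hk1 : y - H / α ≤ k * l) (hk2 : (k : ℝ) * l ≤ k1 * l) :
    k ∈ Ioc (k1 - mm H α l Q) k1 := by
  have hβP : 0 < β * P := mul_pos g.hβ g.hP
  have hα : 0 < α := lt_of_lt_of_le hβP hα1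
  have hl := g.hl
  rw [mem_Ioc]
  refine ⟨?_, by exact_mod_cast le_of_mul_le_mul_right hk2 hl⟩
  have h1 : ((k1 : ℝ) - k) * l ≤ (Q + 1 + H / (α * l)) * l := by
    have e1 : ((k1 : ℝ) - k) * l = k1 * l - k * l := by ring
    have e2 : ((Q : ℝ) + 1 + H / (α * l)) * l = (Q + 1) * l + H / α := by field_simp
    rw [e1, e2]
    have := g.hk1b
    linarith only [this, hk1]
  have h2 : (k1 : ℝ) - k ≤ Q + 1 + H / (α * l) := le_of_mul_le_mul_right h1 hl
  have h3 := Nat.lt_floor_add_one (H / (α * l))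
  have h4 : (k1 : ℝ) < k + (mm H α l Q : ℝ) := by
    unfold mm
    push_cast
    linarith only [h2, h3]
  have h5 : k1 < k + mm H α l Q := by exact_mod_cast h4
  have h6 := g.mm_le_k1 hα1 hα2
  omega

lemma Geo.hR (g : Geo P β η ζ l h H y k1 Q) {b : ℝ} (hb : 0 < b) (hbP : b ≤ P) :
    h = P / (η * b) * (b * l) ∧ 1 / η ≤ P / (η * b) := by
  have hη := g.hη
  refine ⟨by rw [g.hh]; field_simp, ?_⟩
  rw [div_le_div_iff₀ hη (mul_pos hη hb), one_mul, mul_comm P η]
  exact mul_le_mul_of_nonneg_left hbP hη.le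

lemma Geo.logby (g : Geo P β η ζ l h H y k1 Q) {b : ℝ} (hb1 : β * P ≤ b) : 0 ≤ Real.log (b * y) ∧
    Real.log 2 * (1 + η) ≤ η * Real.log (b * y) := by
  have hβP : 0 < β * P := mul_pos g.hβ g.hP
  have hy := g.y0
  have h1 : Real.log (β * P * y) ≤ Real.log (b * y) :=
    Real.log_le_log (mul_pos hβP hy) (mul_le_mul_of_nonneg_right hb1 hy.le)
  have h2 : Real.log 2 * (1 + η) ≤ η * Real.log (b * y) := g.hlogy.trans (mul_le_mul_of_nonneg_left h1 g.hη.le)
  refine ⟨?_, h2⟩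
  have h3 : 0 < Real.log 2 := Real.log_pos (by norm_num)
  have h4 : 0 < η * Real.log (b * y) := lt_of_lt_of_le (mul_pos h3 (by linarith only [g.hη])) h2
  exact (pos_of_mul_pos_right h4 g.hη.le).le

/-- the upper bound for one dilation -/
lemma Geo.up (g : Geo P β η ζ l h H y k1 Q) {b α : ℝ} (hb1 : α ≤ b) (hbP : b ≤ P) (hα1 : β * P ≤ α) (hα2 : α ≤ P) :
    ZH H (b * y) ≤ (1 + η) / (1 - η) * (b * l / H) * ∑ k ∈ Ioc (k1 - mm H α l Q) k1, ZH h (b * (k * l)) := by
  have hβP : 0 < β * P := mul_pos g.hβ g.hP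
  have hα : 0 < α := lt_of_lt_of_le hβP hα1
  have hb : 0 < b := lt_of_lt_of_le hα hb1
  have hβb : β * P ≤ b := hα1.trans hb1
  obtain ⟨r1, r2⟩ := g.hR hb hbP
  have hy := g.y0
  obtain ⟨l1, l2⟩ := g.logby hβb
  refine D_up hb g.hl hy.le g.H0 r1 g.hη (by linarith only [g.hη1]) r2 _ ?_ l1 ?_
  · intro k hk1 hk2
    apply g.mem hα1 hα2
    · have : H / b ≤ H / α := div_le_div_of_nonneg_left g.H0.le hα hb1
      linarith only [this, hk1]
    · have h1 : h / b ≤ h / (β * P) := div_le_div_of_nonneg_left g.h0.le hβP hβb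
      have h2 := g.hk1a
      linarith only [h1, h2, hk2]
  · intro k hk
    rw [mem_Ioc] at hk
    have h1 : k1 ≤ k + mm H α l Q := by omega
    have h2 : (k1 : ℝ) ≤ k + (mm H α l Q : ℝ) := by exact_mod_cast h1
    have h3 : (k1 : ℝ) * l ≤ k * l + (mm H α l Q : ℝ) * l := by
      have := mul_le_mul_of_nonneg_right h2 g.hl.le
      rw [add_mul] at this
      exact this
    have h4 := g.mm_mul hα1 hα2
    have h5 := g.y_le
    have h6 : y / 2 ≤ k * l := by linarith only [h3, h4, h5]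
    have h7 : Real.log (b * y) - Real.log 2 ≤ Real.log (b * (k * l)) := by
      rw [← Real.log_div (mul_pos hb hy).ne' (by norm_num)]
      apply Real.log_le_log (by positivity)
      have : b * y / 2 = b * (y / 2) := by ring
      rw [this]
      exact mul_le_mul_of_nonneg_left h6 hb.le
    have h8 : (1 + η) * (Real.log (b * y) - Real.log 2) ≤ (1 + η) * Real.log (b * (k * l)) :=
      mul_le_mul_of_nonneg_left h7 (by linarith only [g.hη])
    refine le_trans ?_ h8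
    have e : (1 + η) * (Real.log (b * y) - Real.log 2) = Real.log (b * y) + (η * Real.log (b * y) - Real.log 2 * (1 + η)) := by ring
    rw [e]
    linarith only [l2]

/-- **one class** -/
theorem class_lemma {ι : Type} (g : Geo P β η ζ l h H y k1 Q) (S : Finset ι) (b : ι → ℝ) (σ t α : ℝ) (hα1 : β * P ≤ α) (hα2 : α ≤ P)
    (hb1 : ∀ j ∈ S, α ≤ b j) (hb2 : ∀ j ∈ S, b j ≤ (1 + η) * α) (hb3 : ∀ j ∈ S, b j ≤ P) (ht : 0 ≤ t)
    (hE : ∀ m : ℕ, 1 ≤ m → m ≤ k1 → ∑ k ∈ Ioc (k1 - m) k1, |∑ j ∈ S, (ZH h (b j * (k * l)) - 1)| ≤ t * m)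
    (hF1 : (1 + η) ^ 2 / (1 - η) * (1 + ζ) ≤ 1 + σ) (hF2 : (1 + η) ^ 2 / (1 - η) * (1 + ζ) ≤ 2)
    (hF3 : 1 - σ ≤ 1 / (1 + η) * ((1 - η) / (1 + η) - η ^ 2)) (hζ1 : ζ ≤ 1) :
    (1 - σ) * S.card - 2 * t ≤ ∑ j ∈ S, ZH H (b j * y) ∧ ∑ j ∈ S, ZH H (b j * y) ≤ (1 + σ) * S.card + 2 * t := by
  have hβP : 0 < β * P := mul_pos g.hβ g.hP
  have hα : 0 < α := lt_of_lt_of_le hβP hα1
  have hl := g.hl
  have hαl : 0 < α * l := mul_pos hα hl
  have hH := g.H0
  have hh := g.h0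
  have hη := g.hη
  have hη0 : 0 < 1 - η := by linarith only [g.hη1]
  have hη2 : 0 < 1 + η := by linarith only [hη]
  have hS0 : (0 : ℝ) ≤ S.card := Nat.cast_nonneg _
  have hy := g.y0
  obtain ⟨m, hm⟩ : ∃ m, m = mm H α l Q := ⟨_, rfl⟩
  have hm1 : 1 ≤ m := by rw [hm]; unfold mm; omega
  have hmk : m ≤ k1 := by rw [hm]; exact g.mm_le_k1 hα1 hα2
  have hmζ : α * l / H * (m : ℝ) ≤ 1 + ζ := by rw [hm]; exact g.mm_le hα hα2
  have hEm := hE m hm1 hmk
  obtain ⟨E, hEdef⟩ : ∃ E : ℕ → ℝ, ∀ k, E k = |∑ j ∈ S, (ZH h (b j * (k * l)) - 1)| := ⟨_, fun _ => rfl⟩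
  simp_rw [← hEdef] at hEm
  have hsumj : ∀ k : ℕ, ∑ j ∈ S, ZH h (b j * (k * l)) = ∑ j ∈ S, (ZH h (b j * (k * l)) - 1) + S.card := by
    intro k
    rw [sum_sub_distrib, sum_const, nsmul_eq_mul, mul_one]
    ring
  have hEup : ∀ k : ℕ, ∑ j ∈ S, ZH h (b j * (k * l)) ≤ E k + S.card := by
    intro k
    rw [hsumj, hEdef]
    linarith only [le_abs_self (∑ j ∈ S, (ZH h (b j * (k * l)) - 1))]
  have hElow : ∀ k : ℕ, S.card - E k ≤ ∑ j ∈ S, ZH h (b j * (k * l)) := by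
    intro k
    rw [hsumj, hEdef]
    linarith only [neg_abs_le (∑ j ∈ S, (ZH h (b j * (k * l)) - 1))]
  have hcardI : ((Ioc (k1 - m) k1).card : ℝ) = m := by
    rw [Nat.card_Ioc]
    congr 1
    omega
  constructor
  · -- lower bound
    obtain ⟨w, hw⟩ : ∃ w, w = (H - h) / ((1 + η) * α) := ⟨_, rfl⟩
    have hHh : h ≤ η * H := g.hHη
    have hHh2 : 0 ≤ H - h := by
      have : η * H ≤ 1 * H := mul_le_mul_of_nonneg_right (by linarith only [g.hη1]) hH.le
      linarith only [this, hHh]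
    have hw0 : 0 ≤ w := by rw [hw]; positivity
    have hwα : w ≤ H / α := by
      rw [hw, div_le_div_iff₀ (by positivity) hα]
      have h1 : (H - h) * α ≤ H * α := mul_le_mul_of_nonneg_right (by linarith only [hh]) hα.le
      have h2 : H * α ≤ H * ((1 + η) * α) := by
        apply mul_le_mul_of_nonneg_left _ hH.le
        have : (1 + η) * α = α + η * α := by ring
        rw [this]
        linarith only [mul_pos hη hα]
      linarith only [h1, h2]
    have hwy : w ≤ y := by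
      have h1 : H / α ≤ H / (β * P) := div_le_div_of_nonneg_left hH.le hβP hα1
      have h2 : 1 * (H / (β * P)) ≤ (1 + ζ) * (H / (β * P)) := mul_le_mul_of_nonneg_right (by linarith only [g.hζ]) (by positivity)
      have h3 := g.hyH
      linarith only [h1, h2, h3, hwα, hy]
    obtain ⟨I, hI⟩ : ∃ I, I = Icc ⌈(y - w) / l⌉₊ ⌊y / l⌋₊ := ⟨_, rfl⟩
    have hIk : ∀ k ∈ I, y - w ≤ k * l ∧ (k : ℝ) * l ≤ y := by
      intro k hk
      rw [hI, mem_Icc] at hk
      constructor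
      · have h1 := Nat.le_ceil ((y - w) / l)
        have h2 : ((⌈(y - w) / l⌉₊ : ℕ) : ℝ) ≤ k := by exact_mod_cast hk.1
        have h3 : (y - w) / l ≤ k := h1.trans h2
        rwa [div_le_iff₀ hl] at h3
      · have h1 := Nat.floor_le (div_nonneg hy.le hl.le)
        have h2 : (k : ℝ) ≤ ((⌊y / l⌋₊ : ℕ) : ℝ) := by exact_mod_cast hk.2
        have h3 : (k : ℝ) ≤ y / l := h2.trans h1
        rwa [le_div_iff₀ hl] at h3
    have hIsub : I ⊆ Ioc (k1 - m) k1 := by
      intro k hk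
      obtain ⟨h1, h2⟩ := hIk k hk
      rw [hm]
      apply g.mem hα1 hα2
      · linarith only [h1, hwα]
      · linarith only [h2, g.y_le]
    have hIcard : w / l - 1 ≤ (I.card : ℝ) := by
      obtain ⟨x, hx⟩ : ∃ x, x = (y - w) / l := ⟨_, rfl⟩
      rw [hI, Nat.card_Icc, ← hx]
      have hx0 : 0 ≤ x := by rw [hx]; exact div_nonneg (sub_nonneg.2 hwy) hl.le
      have h1 := Nat.ceil_lt_add_one hx0
      have h2 := Nat.lt_floor_add_one (y / l)
      have h3 : (⌊y / l⌋₊ : ℝ) + 1 ≤ ((⌊y / l⌋₊ + 1 - ⌈x⌉₊ : ℕ) : ℝ) + ⌈x⌉₊ := by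
        have : ⌊y / l⌋₊ + 1 ≤ (⌊y / l⌋₊ + 1 - ⌈x⌉₊) + ⌈x⌉₊ := by omega
        exact_mod_cast this
      have e : x = y / l - w / l := by rw [hx]; ring
      linarith only [h1, h2, h3, e]
    have hlow : ∀ j ∈ S, 1 / (1 + η) * (α * l / H) * ∑ k ∈ I, ZH h (b j * (k * l)) ≤ ZH H (b j * y) := by
      intro j hj
      have hbα := hb1 j hj
      have hb : 0 < b j := lt_of_lt_of_le hα hbα
      obtain ⟨r1, r2⟩ := g.hR hb (hb3 j hj)
      refine le_trans ?_ (D_low hb hl hy.le hH r1 hη r2 I ?_ (g.logby (hα1.trans hbα)).1)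
      · apply mul_le_mul_of_nonneg_right _ (sum_nonneg fun k _ => ZH_nonneg hh.le _)
        apply mul_le_mul_of_nonneg_left _ (by positivity)
        apply div_le_div_of_nonneg_right _ hH.le
        exact mul_le_mul_of_nonneg_right hbα hl.le
      · intro k hk
        obtain ⟨h1, h2⟩ := hIk k hk
        refine ⟨?_, h2⟩
        have h3 : w ≤ (H - h) / b j := by
          rw [hw]; exact div_le_div_of_nonneg_left hHh2 hb (hb2 j hj)
        linarith only [h1, h3]
    have hsum : 1 / (1 + η) * (α * l / H) * ((w / l - 1) * S.card - t * m) ≤ ∑ j ∈ S, ZH H (b j * y) := by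
      refine le_trans ?_ (sum_le_sum hlow)
      rw [← mul_sum, sum_comm]
      apply mul_le_mul_of_nonneg_left _ (by positivity)
      have h1 : ∑ k ∈ I, (S.card - E k) ≤ ∑ k ∈ I, ∑ j ∈ S, ZH h (b j * (k * l)) := sum_le_sum fun k _ => hElow k
      rw [sum_sub_distrib, sum_const, nsmul_eq_mul] at h1
      have h2 : ∑ k ∈ I, E k ≤ ∑ k ∈ Ioc (k1 - m) k1, E k :=
        sum_le_sum_of_subset_of_nonneg hIsub fun k _ _ => by rw [hEdef]; exact abs_nonneg _
      have h3 : (w / l - 1) * (S.card : ℝ) ≤ I.card * S.card := mul_le_mul_of_nonneg_right hIcard hS0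
      linarith only [h1, h2, h3, hEm]
    refine le_trans ?_ hsum
    have e1 : 1 / (1 + η) * (α * l / H) * ((w / l - 1) * S.card - t * m) =
        1 / (1 + η) * ((α * w / H - α * l / H) * S.card) - 1 / (1 + η) * (α * l / H * m * t) := by
      field_simp
    rw [e1]
    have e2 : (1 - η) / (1 + η) ≤ α * w / H := by
      rw [hw]
      have e3 : α * ((H - h) / ((1 + η) * α)) / H = (1 - h / H) / (1 + η) := by field_simp
      rw [e3]
      apply div_le_div_of_nonneg_right _ hη2.le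
      have : h / H ≤ η := by rw [div_le_iff₀ hH]; exact hHh
      linarith only [this]
    have e4 : α * l / H ≤ η ^ 2 := by
      rw [div_le_iff₀ hH]
      have h1 := g.hH
      rw [div_le_iff₀ (pow_pos hη 2)] at h1
      have h2 : α * l ≤ P * l := mul_le_mul_of_nonneg_right hα2 hl.le
      linarith only [h1, h2]
    have e5 : (1 - σ) * (S.card : ℝ) ≤ 1 / (1 + η) * ((α * w / H - α * l / H) * S.card) := by
      calc (1 - σ) * (S.card : ℝ) ≤ 1 / (1 + η) * ((1 - η) / (1 + η) - η ^ 2) * S.card := mul_le_mul_of_nonneg_right hF3 hS0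
        _ = 1 / (1 + η) * (((1 - η) / (1 + η) - η ^ 2) * S.card) := by ring
        _ ≤ 1 / (1 + η) * ((α * w / H - α * l / H) * S.card) := by
          apply mul_le_mul_of_nonneg_left _ (by positivity)
          apply mul_le_mul_of_nonneg_right _ hS0
          linarith only [e2, e4]
    have e6 : 1 / (1 + η) * (α * l / H * m * t) ≤ 2 * t := by
      have h1 : α * l / H * m * t ≤ (1 + ζ) * t := mul_le_mul_of_nonneg_right hmζ ht
      have h2 : (1 + ζ) * t ≤ 2 * t := mul_le_mul_of_nonneg_right (by linarith only [hζ1]) ht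
      have h3 : 1 / (1 + η) ≤ 1 := by rw [div_le_one hη2]; linarith only [hη]
      have h4 : 0 ≤ α * l / H * m * t := by positivity
      calc 1 / (1 + η) * (α * l / H * m * t) ≤ 1 * (α * l / H * m * t) := mul_le_mul_of_nonneg_right h3 h4
        _ ≤ 2 * t := by linarith only [h1, h2]
    linarith only [e5, e6]
  · -- upper bound
    have hup : ∀ j ∈ S, ZH H (b j * y) ≤ (1 + η) ^ 2 / (1 - η) * (α * l / H) * ∑ k ∈ Ioc (k1 - m) k1, ZH h (b j * (k * l)) := by
      intro j hj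
      rw [hm]
      refine (g.up (hb1 j hj) (hb3 j hj) hα1 hα2).trans ?_
      apply mul_le_mul_of_nonneg_right _ (sum_nonneg fun k _ => ZH_nonneg hh.le _)
      have h1 : b j * l / H ≤ (1 + η) * α * l / H := by
        apply div_le_div_of_nonneg_right _ hH.le
        exact mul_le_mul_of_nonneg_right (hb2 j hj) hl.le
      calc (1 + η) / (1 - η) * (b j * l / H) ≤ (1 + η) / (1 - η) * ((1 + η) * α * l / H) :=
            mul_le_mul_of_nonneg_left h1 (by positivity)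
        _ = (1 + η) ^ 2 / (1 - η) * (α * l / H) := by field_simp
    refine (sum_le_sum hup).trans ?_
    rw [← mul_sum, sum_comm]
    have h1 : ∑ k ∈ Ioc (k1 - m) k1, ∑ j ∈ S, ZH h (b j * (k * l)) ≤ (m : ℝ) * (S.card + t) := by
      refine (sum_le_sum fun k _ => hEup k).trans ?_
      rw [sum_add_distrib, sum_const, nsmul_eq_mul, hcardI]
      linarith only [hEm]
    calc (1 + η) ^ 2 / (1 - η) * (α * l / H) * ∑ k ∈ Ioc (k1 - m) k1, ∑ j ∈ S, ZH h (b j * (k * l))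
        ≤ (1 + η) ^ 2 / (1 - η) * (α * l / H) * ((m : ℝ) * (S.card + t)) := mul_le_mul_of_nonneg_left h1 (by positivity)
      _ = (1 + η) ^ 2 / (1 - η) * (α * l / H * m) * (S.card + t) := by ring
      _ ≤ (1 + η) ^ 2 / (1 - η) * (1 + ζ) * (S.card + t) := by
        apply mul_le_mul_of_nonneg_right _ (by linarith only [hS0, ht])
        exact mul_le_mul_of_nonneg_left hmζ (by positivity)
      _ = (1 + η) ^ 2 / (1 - η) * (1 + ζ) * S.card + (1 + η) ^ 2 / (1 - η) * (1 + ζ) * t := by ring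
      _ ≤ (1 + σ) * S.card + 2 * t := add_le_add (mul_le_mul_of_nonneg_right hF1 hS0) (mul_le_mul_of_nonneg_right hF2 ht)

end Pool.Agent.Y851.PU
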