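import Pool.Agent.Y851.PU.Q3

/-! Families of dilations at a good point; good points. -/

set_option autoImplicit false

namespace Pool.Agent.Y851.PU
open Finset Filter
open Pool.Agent.Y851.PT

variable {P β η ζ l h H y : ℝ} {k1 Q : ℕ}

/-- second moments at a good point -/
theorem second {ι : Type} (g : Geo P β η ζ l h H y k1 Q) (S : Finset ι) (b : ι → ℝ) (t : ℝ)
    (hb1 : ∀ j ∈ S, β * P ≤ b j) (hb3 : ∀ j ∈ S, b j ≤ P) (hβ1 : β ≤ 1) (ht : 0 ≤ t)
    (hG : ∀ m : ℕ, 1 ≤ m → m ≤ k1 → ∑ k ∈ Ioc (k1 - m) k1, ∑ j ∈ S, ZH h (b j * (k * l)) ^ 2 ≤ t * m) (hζ1 : ζ ≤ 1) :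
    ∑ j ∈ S, ZH H (b j * y) ^ 2 ≤ 16 / β ^ 2 * t := by
  have hβ := g.hβ
  have hP := g.hP
  have hβP : 0 < β * P := mul_pos hβ hP
  have hα2 : β * P ≤ P := by
    calc β * P ≤ 1 * P := mul_le_mul_of_nonneg_right hβ1 hP.le
      _ = P := one_mul P
  have hl := g.hl
  have hH := g.H0
  have hh := g.h0
  have hη := g.hη
  have hη0 : 0 < 1 - η := by linarith only [g.hη1]
  obtain ⟨m, hm⟩ : ∃ m, m = mm H (β * P) l Q := ⟨_, rfl⟩
  have hm1 : 1 ≤ m := by rw [hm]; unfold mm; omega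
  have hmk : m ≤ k1 := by rw [hm]; exact g.mm_le_k1 le_rfl hα2
  have hmζ : β * P * l / H * (m : ℝ) ≤ 1 + ζ := by rw [hm]; exact g.mm_le hβP hα2
  have hGm := hG m hm1 hmk
  have hcardI : ((Ioc (k1 - m) k1).card : ℝ) = m := by
    rw [Nat.card_Ioc]
    congr 1
    omega
  have hm0 : (0 : ℝ) ≤ m := Nat.cast_nonneg _
  have hF : (1 + η) / (1 - η) ≤ 2 := by
    rw [div_le_iff₀ hη0]
    linarith only [g.hη1]
  have hup : ∀ j ∈ S, ZH H (b j * y) ^ 2 ≤ 4 * (P * l / H) ^ 2 * m * ∑ k ∈ Ioc (k1 - m) k1, ZH h (b j * (k * l)) ^ 2 := by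
    intro j hj
    have h1 := g.up (hb1 j hj) (hb3 j hj) le_rfl hα2
    rw [← hm] at h1
    have hs0 : 0 ≤ ∑ k ∈ Ioc (k1 - m) k1, ZH h (b j * (k * l)) := sum_nonneg fun k _ => ZH_nonneg hh.le _
    have hb0 : 0 < b j := lt_of_lt_of_le hβP (hb1 j hj)
    have h2 : ZH H (b j * y) ≤ 2 * (P * l / H) * ∑ k ∈ Ioc (k1 - m) k1, ZH h (b j * (k * l)) := by
      refine h1.trans ?_
      apply mul_le_mul_of_nonneg_right _ hs0
      apply mul_le_mul hF _ (by positivity) (by norm_num)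
      apply div_le_div_of_nonneg_right _ hH.le
      exact mul_le_mul_of_nonneg_right (hb3 j hj) hl.le
    have h3 := pow_le_pow_left₀ (ZH_nonneg hH.le _) h2 2
    have h4 : (∑ k ∈ Ioc (k1 - m) k1, ZH h (b j * (k * l))) ^ 2 ≤ ((Ioc (k1 - m) k1).card : ℝ) * ∑ k ∈ Ioc (k1 - m) k1, ZH h (b j * (k * l)) ^ 2 :=
      sq_sum_le_card_mul_sum_sq
    rw [hcardI] at h4
    calc ZH H (b j * y) ^ 2 ≤ (2 * (P * l / H) * ∑ k ∈ Ioc (k1 - m) k1, ZH h (b j * (k * l))) ^ 2 := h3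
      _ = 4 * (P * l / H) ^ 2 * (∑ k ∈ Ioc (k1 - m) k1, ZH h (b j * (k * l))) ^ 2 := by ring
      _ ≤ 4 * (P * l / H) ^ 2 * (m * ∑ k ∈ Ioc (k1 - m) k1, ZH h (b j * (k * l)) ^ 2) := mul_le_mul_of_nonneg_left h4 (by positivity)
      _ = _ := by ring
  refine (sum_le_sum hup).trans ?_
  rw [← mul_sum, sum_comm]
  calc 4 * (P * l / H) ^ 2 * m * ∑ k ∈ Ioc (k1 - m) k1, ∑ j ∈ S, ZH h (b j * (k * l)) ^ 2
      ≤ 4 * (P * l / H) ^ 2 * m * (t * m) := mul_le_mul_of_nonneg_left hGm (by positivity)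
    _ = 4 * t / β ^ 2 * (β * P * l / H * m) ^ 2 := by field_simp
    _ ≤ 4 * t / β ^ 2 * 2 ^ 2 := by
      apply mul_le_mul_of_nonneg_left _ (by positivity)
      apply pow_le_pow_left₀ (by positivity)
      linarith only [hmζ, hζ1]
    _ = _ := by ring

/-- the class of a dilation -/
noncomputable def cls (P β η b : ℝ) : ℕ := ⌊Real.log (b / (β * P)) / Real.log (1 + η)⌋₊

lemma cls_spec {P β η b : ℝ} (hP : 0 < P) (hβ : 0 < β) (hη : 0 < η) (hb : β * P ≤ b) :
    β * P * (1 + η) ^ cls P β η b ≤ b ∧ b ≤ (1 + η) * (β * P * (1 + η) ^ cls P β η b) := by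
  have hβP : 0 < β * P := mul_pos hβ hP
  have hb0 : 0 < b := lt_of_lt_of_le hβP hb
  have hr : 1 ≤ b / (β * P) := by rw [le_div_iff₀ hβP, one_mul]; exact hb
  have hr0 : 0 < b / (β * P) := by linarith only [hr]
  have hlogη : 0 < Real.log (1 + η) := Real.log_pos (by linarith only [hη])
  have h1η : 0 < 1 + η := by linarith only [hη]
  have hx0 : 0 ≤ Real.log (b / (β * P)) / Real.log (1 + η) := div_nonneg (Real.log_nonneg hr) hlogη.le
  have h1 := Nat.floor_le hx0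
  have h2 := Nat.lt_floor_add_one (Real.log (b / (β * P)) / Real.log (1 + η))
  rw [le_div_iff₀ hlogη] at h1
  rw [div_lt_iff₀ hlogη] at h2
  change (cls P β η b : ℝ) * Real.log (1 + η) ≤ _ at h1
  change _ < ((cls P β η b : ℝ) + 1) * Real.log (1 + η) at h2
  have e1 : (1 + η) ^ cls P β η b ≤ b / (β * P) := by
    rw [← Real.log_le_log_iff (pow_pos h1η _) hr0, Real.log_pow]
    exact h1
  have e2 : b / (β * P) ≤ (1 + η) ^ (cls P β η b + 1) := by
    rw [← Real.log_le_log_iff hr0 (pow_pos h1η _), Real.log_pow]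
    push_cast
    exact h2.le
  constructor
  · rw [le_div_iff₀ hβP] at e1
    rw [mul_comm]; exact e1
  · rw [div_le_iff₀ hβP] at e2
    refine e2.trans (le_of_eq ?_)
    ring

lemma cls_lt {P β η b : ℝ} (hP : 0 < P) (hβ : 0 < β) (hη : 0 < η) (hb : β * P ≤ b) (hbP : b ≤ P) :
    cls P β η b < ⌊Real.log (1 / β) / Real.log (1 + η)⌋₊ + 1 := by
  have hβP : 0 < β * P := mul_pos hβ hP
  have hb0 : 0 < b := lt_of_lt_of_le hβP hb
  have hlogη : 0 < Real.log (1 + η) := Real.log_pos (by linarith only [hη])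
  rw [Nat.lt_succ_iff]
  unfold cls
  apply Nat.floor_mono
  apply div_le_div_of_nonneg_right _ hlogη.le
  apply Real.log_le_log (by positivity)
  rw [div_le_div_iff₀ hβP hβ, one_mul]
  calc b * β ≤ P * β := mul_le_mul_of_nonneg_right hbP hβ.le
    _ = β * P := mul_comm _ _

/-- **a family of dilations at a good point** -/
theorem family {ι : Type} (g : Geo P β η ζ l h H y k1 Q) (S : Finset ι) (b : ι → ℝ) (σ t : ℝ) (J : ℕ)
    (hJ : J = ⌊Real.log (1 / β) / Real.log (1 + η)⌋₊ + 1) (hb1 : ∀ j ∈ S, β * P ≤ b j) (hb3 : ∀ j ∈ S, b j ≤ P) (ht : 0 ≤ t)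
    (hE : ∀ i < J, ∀ m : ℕ, 1 ≤ m → m ≤ k1 → ∑ k ∈ Ioc (k1 - m) k1,
      |∑ j ∈ S.filter (fun j => cls P β η (b j) = i), (ZH h (b j * (k * l)) - 1)| ≤ t * m)
    (hF1 : (1 + η) ^ 2 / (1 - η) * (1 + ζ) ≤ 1 + σ) (hF2 : (1 + η) ^ 2 / (1 - η) * (1 + ζ) ≤ 2)
    (hF3 : 1 - σ ≤ 1 / (1 + η) * ((1 - η) / (1 + η) - η ^ 2)) (hζ1 : ζ ≤ 1) :
    |∑ j ∈ S, ZH H (b j * y) - S.card| ≤ σ * S.card + 2 * J * t := by
  classical
  have hP := g.hP
  have hβ := g.hβ
  have hη := g.hη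
  have hβP : 0 < β * P := mul_pos hβ hP
  have hmaps : ∀ j ∈ S, cls P β η (b j) ∈ range J := fun j hj => by
    rw [mem_range, hJ]; exact cls_lt hP hβ hη (hb1 j hj) (hb3 j hj)
  have hcl : ∀ i ∈ range J, |∑ j ∈ S.filter (fun j => cls P β η (b j) = i), ZH H (b j * y) - (S.filter (fun j => cls P β η (b j) = i)).card| ≤
      σ * (S.filter (fun j => cls P β η (b j) = i)).card + 2 * t := by
    intro i hi
    rw [mem_range] at hi
    by_cases hne : (S.filter (fun j => cls P β η (b j) = i)).Nonempty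
    · obtain ⟨j0, hj0⟩ := hne
      rw [mem_filter] at hj0
      obtain ⟨hj0S, hj0i⟩ := hj0
      have hs0 := cls_spec hP hβ hη (hb1 j0 hj0S)
      rw [hj0i] at hs0
      have hα1 : β * P ≤ β * P * (1 + η) ^ i := by
        have : 1 ≤ (1 + η) ^ i := one_le_pow₀ (by linarith only [hη])
        calc β * P = β * P * 1 := (mul_one _).symm
          _ ≤ _ := mul_le_mul_of_nonneg_left this hβP.le
      have hres := class_lemma g (S.filter (fun j => cls P β η (b j) = i)) b σ t (β * P * (1 + η) ^ i) hα1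
        (hs0.1.trans (hb3 j0 hj0S)) (by
          intro j hj
          rw [mem_filter] at hj
          have := (cls_spec hP hβ hη (hb1 j hj.1)).1
          rw [hj.2] at this
          exact this) (by
          intro j hj
          rw [mem_filter] at hj
          have := (cls_spec hP hβ hη (hb1 j hj.1)).2
          rw [hj.2] at this
          exact this) (by
          intro j hj
          rw [mem_filter] at hj
          exact hb3 j hj.1) ht (hE i hi) hF1 hF2 hF3 hζ1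
      rw [abs_le]
      have e1 : (1 - σ) * ((S.filter (fun j => cls P β η (b j) = i)).card : ℝ) = (S.filter (fun j => cls P β η (b j) = i)).card -
        σ * (S.filter (fun j => cls P β η (b j) = i)).card := by ring
      have e2 : (1 + σ) * ((S.filter (fun j => cls P β η (b j) = i)).card : ℝ) = (S.filter (fun j => cls P β η (b j) = i)).card +
        σ * (S.filter (fun j => cls P β η (b j) = i)).card := by ring
      rw [e1, e2] at hres
      constructor
      · linarith only [hres.1]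
      · linarith only [hres.2]
    · rw [not_nonempty_iff_eq_empty] at hne
      rw [hne]
      simp only [sum_empty, card_empty, Nat.cast_zero, sub_zero, abs_zero, mul_zero, zero_add]
      linarith only [ht]
  have e1 : ∑ j ∈ S, ZH H (b j * y) - (S.card : ℝ) = ∑ i ∈ range J, (∑ j ∈ S.filter (fun j => cls P β η (b j) = i), ZH H (b j * y) -
      (S.filter (fun j => cls P β η (b j) = i)).card) := by
    rw [sum_sub_distrib, sum_fiberwise_of_maps_to hmaps]
    congr 1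
    exact_mod_cast card_eq_sum_card_fiberwise (fun j hj => hmaps j (mem_coe.1 hj))
  rw [e1]
  refine (abs_sum_le_sum_abs _ _).trans ((sum_le_sum hcl).trans (le_of_eq ?_))
  rw [sum_add_distrib, ← mul_sum, sum_const, card_range, nsmul_eq_mul]
  have e2 : ∑ i ∈ range J, ((S.filter (fun j => cls P β η (b j) = i)).card : ℝ) = S.card := by
    have := card_eq_sum_card_fiberwise (f := fun j => cls P β η (b j)) (s := S) (t := range J) (fun j hj => hmaps j (mem_coe.1 hj))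
    exact_mod_cast this.symm
  rw [e2]
  ring

/-- **good points** -/
theorem geo_cover (θ lam ρ β η ζ δ : ℝ) (Q : ℕ) (hlam : 0 < lam) (hρ : 0 < ρ) (hρ1 : ρ ≤ 1) (hβ : 0 < β)
    (hη : 0 < η) (hη1 : η ≤ 1 / 4) (hζ : 0 < ζ) (hζ1 : ζ ≤ 1) (hδ : 0 < δ) (hQ0 : 1 / (η * β) ≤ Q) (hQ : (Q : ℝ) + 2 ≤ ζ / η ^ 2)
    (hQl : ((Q : ℝ) + 1) * (η ^ 2 * lam) ≤ 1) : ∀ᶠ X : ℝ in atTop, ∀ Bad : Finset ℕ, (Bad.card : ℝ) ≤ δ / 2 * (X / Real.log X) →
    ∃ U : Finset ℝ, (U.card : ℝ) ≤ δ * (X / Real.log X) ∧ ∀ y : ℝ, 0 < y → y ≤ X ^ (1 - θ) →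
      (∀ u ∈ U, ¬ (u ≤ y ∧ y ≤ u + Real.log X / X ^ θ)) →
      ∃ k1 : ℕ, 1 ≤ k1 ∧ k1 ≤ ⌊X / (η * (η * (lam * Real.log X)))⌋₊ ∧ k1 ∉ Bad ∧
      ∀ H : ℝ, lam * Real.log X ≤ H → H ≤ X ^ (1 - ρ) →
        Geo (X ^ θ) β η ζ (η * (η * (lam * Real.log X) / X ^ θ)) (η * (lam * Real.log X)) H y k1 Q := by
  have hev1 : ∀ᶠ X : ℝ in atTop, 4 / β ≤ X ^ (ρ / 2) := (tendsto_rpow_atTop (half_pos hρ)).eventually_ge_atTop _
  have hev2 : ∀ᶠ X : ℝ in atTop, Real.exp (Real.log 2 * (1 + η) / η) / β ≤ X ^ (1 - ρ / 2) :=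
    (tendsto_rpow_atTop (show 0 < 1 - ρ / 2 by linarith only [hρ1])).eventually_ge_atTop _
  have hev3 : ∀ᶠ X : ℝ in atTop, 4 / δ ≤ X ^ (ρ / 2) := (tendsto_rpow_atTop (half_pos hρ)).eventually_ge_atTop _
  have hev4 : ∀ᶠ X : ℝ in atTop, Real.log X ≤ δ / 8 * X := by
    have h := Real.isLittleO_log_id_atTop.bound (show 0 < δ / 8 by positivity)
    filter_upwards [h, eventually_ge_atTop 1] with X hX hX1
    have h1 := Real.log_nonneg hX1
    simp only [id, Real.norm_eq_abs] at hX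
    rw [abs_of_nonneg h1, abs_of_nonneg (by linarith only [hX1])] at hX
    exact hX
  filter_upwards [hev1, hev2, hev3, hev4, eventually_ge_atTop 3] with X hX1 hX2 hX3 hX4 hX5 Bad hBad
  have hX0 : 0 < X := by linarith only [hX5]
  obtain ⟨ℓ, hℓ⟩ : ∃ ℓ, ℓ = Real.log X := ⟨_, rfl⟩
  have hℓ1 : 1 ≤ ℓ := by
    rw [hℓ, Real.le_log_iff_exp_le hX0]
    have := Real.exp_one_lt_d9
    linarith only [this, hX5]
  have hℓ0 : 0 < ℓ := by linarith only [hℓ1]
  rw [← hℓ] at hX4 hBad ⊢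
  obtain ⟨P, hP⟩ : ∃ P, P = X ^ θ := ⟨_, rfl⟩
  have hP0 : 0 < P := by rw [hP]; positivity
  rw [← hP]
  obtain ⟨l, hl⟩ : ∃ l, l = η * (η * (lam * ℓ) / P) := ⟨_, rfl⟩
  have hl0 : 0 < l := by rw [hl]; positivity
  obtain ⟨h, hh⟩ : ∃ h, h = η * (lam * ℓ) := ⟨_, rfl⟩
  have hh0 : 0 < h := by rw [hh]; positivity
  obtain ⟨L, hL⟩ : ∃ L, L = ℓ / P := ⟨_, rfl⟩
  have hL0 : 0 < L := by rw [hL]; positivity
  have hlL : l = η ^ 2 * lam * L := by rw [hl, hL]; ring
  have hQlL : ((Q : ℝ) + 1) * l ≤ L := by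
    rw [hlL]
    calc ((Q : ℝ) + 1) * (η ^ 2 * lam * L) = ((Q : ℝ) + 1) * (η ^ 2 * lam) * L := by ring
      _ ≤ 1 * L := mul_le_mul_of_nonneg_right hQl hL0.le
      _ = L := one_mul L
  have hlL1 : l ≤ L := by
    refine le_trans ?_ hQlL
    have : ((Q : ℝ) + 1) * l = Q * l + l := by ring
    rw [this]
    have h1 : 0 ≤ (Q : ℝ) * l := mul_nonneg (Nat.cast_nonneg _) hl0.le
    linarith only [h1]
  rw [← hl, ← hh, ← hL]
  obtain ⟨T, hT⟩ : ∃ T, T = X ^ (1 - θ) := ⟨_, rfl⟩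
  have hTl : T = X / (η * h) * l := by
    rw [hT, Real.rpow_sub hX0, Real.rpow_one, hl, hh, ← hP]
    field_simp
  rw [← hT]
  obtain ⟨K, hK⟩ : ∃ K, K = ⌊X / (η * h)⌋₊ := ⟨_, rfl⟩
  rw [← hK]
  obtain ⟨Y, hY⟩ : ∃ Y, Y = X ^ (1 - ρ / 2) / P := ⟨_, rfl⟩
  have hY0 : 0 < Y := by rw [hY]; positivity
  -- the exceptional intervals
  refine ⟨Bad.image (fun k : ℕ => ((k : ℝ) - Q - 1) * l) ∪ (range (⌊Y / L⌋₊ + 1)).image (fun i : ℕ => (i : ℝ) * L) ∪ {T - L}, ?_, ?_⟩
  · have h1 : ((Bad.image (fun k : ℕ => ((k : ℝ) - Q - 1) * l) ∪ (range (⌊Y / L⌋₊ + 1)).image (fun i : ℕ => (i : ℝ) * L) ∪ {T - L}).card : ℝ) ≤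
        Bad.card + ((⌊Y / L⌋₊ : ℝ) + 1) + 1 := by
      have g1 := card_union_le (Bad.image (fun k : ℕ => ((k : ℝ) - Q - 1) * l) ∪ (range (⌊Y / L⌋₊ + 1)).image (fun i : ℕ => (i : ℝ) * L)) {T - L}
      have g2 := card_union_le (Bad.image (fun k : ℕ => ((k : ℝ) - Q - 1) * l)) ((range (⌊Y / L⌋₊ + 1)).image (fun i : ℕ => (i : ℝ) * L))
      have g3 : (Bad.image (fun k : ℕ => ((k : ℝ) - Q - 1) * l)).card ≤ Bad.card := card_image_le
      have g4 : ((range (⌊Y / L⌋₊ + 1)).image (fun i : ℕ => (i : ℝ) * L)).card ≤ ⌊Y / L⌋₊ + 1 := card_image_le.trans (by rw [card_range])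
      have g5 : ({T - L} : Finset ℝ).card = 1 := card_singleton _
      have g6 : (Bad.image (fun k : ℕ => ((k : ℝ) - Q - 1) * l) ∪ (range (⌊Y / L⌋₊ + 1)).image (fun i : ℕ => (i : ℝ) * L) ∪ {T - L}).card ≤
        Bad.card + (⌊Y / L⌋₊ + 1) + 1 := by omega
      exact_mod_cast g6
    have h2 : (⌊Y / L⌋₊ : ℝ) ≤ Y / L := Nat.floor_le (by positivity)
    have h3 : Y / L = X ^ (1 - ρ / 2) / ℓ := by rw [hY, hL]; field_simp
    have h4 : X ^ (1 - ρ / 2) ≤ δ / 4 * X := by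
      have e : X ^ (ρ / 2) * X ^ (1 - ρ / 2) = X := by
        rw [← Real.rpow_add hX0]
        have : ρ / 2 + (1 - ρ / 2) = 1 := by ring
        rw [this, Real.rpow_one]
      have h5 : 4 / δ * X ^ (1 - ρ / 2) ≤ X := by
        calc 4 / δ * X ^ (1 - ρ / 2) ≤ X ^ (ρ / 2) * X ^ (1 - ρ / 2) := mul_le_mul_of_nonneg_right hX3 (by positivity)
          _ = X := e
      have h6 : X ^ (1 - ρ / 2) = δ / 4 * (4 / δ * X ^ (1 - ρ / 2)) := by field_simp
      rw [h6]
      exact mul_le_mul_of_nonneg_left h5 (by positivity)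
    have h5 : X ^ (1 - ρ / 2) / ℓ ≤ δ / 4 * (X / ℓ) := by
      rw [← mul_div_assoc]
      exact div_le_div_of_nonneg_right h4 hℓ0.le
    have h6 : (2 : ℝ) ≤ δ / 4 * (X / ℓ) := by
      rw [← mul_div_assoc, le_div_iff₀ hℓ0]
      linarith only [hX4]
    have h2' := h2.trans (le_of_eq h3)
    linarith only [h1, h2', h5, h6, hBad]
  · intro y hy0 hyT hyU
    have hyY : Y < y := by
      by_contra hcon
      push Not at hcon
      have h1 : y / L ≤ Y / L := div_le_div_of_nonneg_right hcon hL0.le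
      refine hyU ((⌊y / L⌋₊ : ℝ) * L) (mem_union_left _ (mem_union_right _ (mem_image_of_mem (fun i : ℕ => (i : ℝ) * L) ?_))) ⟨?_, ?_⟩
      · rw [mem_range, Nat.lt_succ_iff]
        exact Nat.floor_mono h1
      · rw [← le_div_iff₀ hL0]
        exact Nat.floor_le (by positivity)
      · have h2 := Nat.lt_floor_add_one (y / L)
        rw [div_lt_iff₀ hL0, add_mul, one_mul] at h2
        exact h2.le
    have hyT2 : y < T - L := by
      have := hyU (T - L) (mem_union_right _ (mem_singleton_self _))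
      by_contra hcon
      push Not at hcon
      exact this ⟨hcon, by linarith only [hyT]⟩
    obtain ⟨k1, hk1⟩ : ∃ k1, k1 = ⌈y / l⌉₊ + Q := ⟨_, rfl⟩
    have hc1 := Nat.le_ceil (y / l)
    have hc2 := Nat.ceil_lt_add_one (show 0 ≤ y / l by positivity)
    rw [div_le_iff₀ hl0] at hc1
    have hk1a : y + Q * l ≤ k1 * l := by
      rw [hk1]
      push_cast
      rw [add_mul]
      linarith only [hc1]
    have hk1b : (k1 : ℝ) * l ≤ y + (Q + 1) * l := by
      have h1 : (k1 : ℝ) ≤ y / l + (Q + 1) := by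
        rw [hk1]
        push_cast
        linarith only [hc2]
      have h2 := mul_le_mul_of_nonneg_right h1 hl0.le
      have e : (y / l + ((Q : ℝ) + 1)) * l = y + (Q + 1) * l := by field_simp
      rw [e] at h2
      exact h2
    have hk1pos : 1 ≤ k1 := by
      have : 0 < ⌈y / l⌉₊ := Nat.ceil_pos.2 (by positivity)
      omega
    refine ⟨k1, hk1pos, ?_, ?_, ?_⟩
    · rw [hK]
      apply Nat.le_floor
      have h1 : (k1 : ℝ) * l ≤ X / (η * h) * l := by
        rw [← hTl]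
        linarith only [hk1b, hyT2, hQlL]
      exact le_of_mul_le_mul_right h1 hl0
    · intro hbad
      refine hyU (((k1 : ℝ) - Q - 1) * l) (mem_union_left _ (mem_union_left _ (mem_image_of_mem (fun k : ℕ => ((k : ℝ) - Q - 1) * l) hbad))) ⟨?_, ?_⟩
      · have e : ((k1 : ℝ) - Q - 1) * l = k1 * l - (Q + 1) * l := by ring
        rw [e]; linarith only [hk1b]
      · have e : ((k1 : ℝ) - Q - 1) * l = k1 * l - Q * l - l := by ring
        rw [e]; linarith only [hk1a, hlL1]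
    · intro H hH1 hH2
      have hη2 : 0 < η ^ 2 := pow_pos hη 2
      have hPl : P * l / η ^ 2 = lam * ℓ := by rw [hl]; field_simp
      have hhP : h / (β * P) = 1 / (η * β) * l := by rw [hh, hl]; field_simp
      refine ⟨hP0, hβ, hη, hη1, hζ, hl0, ?_, ?_, ?_, hk1b, hQ, ?_, ?_⟩
      · rw [hh, hl]; field_simp
      · rw [hPl]; exact hH1
      · rw [hhP]
        have : 1 / (η * β) * l ≤ Q * l := mul_le_mul_of_nonneg_right hQ0 hl0.le
        linarith only [this, hk1a]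
      · have h1 : (1 + ζ) * (H / (β * P)) ≤ 2 * (H / (β * P)) := by
          apply mul_le_mul_of_nonneg_right (by linarith only [hζ1])
          have : 0 < H := lt_of_lt_of_le (by positivity) hH1
          positivity
        have h2 : H / (β * P) ≤ X ^ (1 - ρ) / (β * P) := div_le_div_of_nonneg_right hH2 (by positivity)
        have h3 : X ^ (1 - ρ) / (β * P) ≤ Y / 4 := by
          rw [hY, div_div, div_le_div_iff₀ (by positivity) (by positivity)]
          have e : X ^ (1 - ρ / 2) = X ^ (ρ / 2) * X ^ (1 - ρ) := by rw [← Real.rpow_add hX0]; congr 1; ring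
          rw [e]
          have h4 : 4 / β * β ≤ X ^ (ρ / 2) * β := mul_le_mul_of_nonneg_right hX1 hβ.le
          have h5 : 4 / β * β = 4 := by field_simp
          rw [h5] at h4
          have h6 : 4 * (X ^ (1 - ρ) * P) ≤ X ^ (ρ / 2) * β * (X ^ (1 - ρ) * P) := mul_le_mul_of_nonneg_right h4 (by positivity)
          have e1 : X ^ (1 - ρ) * (P * 4) = 4 * (X ^ (1 - ρ) * P) := by ring
          have e2 : X ^ (ρ / 2) * X ^ (1 - ρ) * (β * P) = X ^ (ρ / 2) * β * (X ^ (1 - ρ) * P) := by ring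
          rw [e1, e2]
          exact h6
        linarith only [h1, h2, h3, hyY]
      · have h1 : X ^ (1 - ρ / 2) ≤ P * y := by
          rw [hY, div_lt_iff₀ hP0] at hyY
          linarith only [hyY]
        have h2 : Real.exp (Real.log 2 * (1 + η) / η) ≤ β * P * y := by
          rw [div_le_iff₀ hβ] at hX2
          have h3 : X ^ (1 - ρ / 2) * β ≤ P * y * β := mul_le_mul_of_nonneg_right h1 hβ.le
          have e : β * P * y = P * y * β := by ring
          rw [e]; linarith only [hX2, h3]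
        have h3 : Real.log 2 * (1 + η) / η ≤ Real.log (β * P * y) := by
          rw [Real.le_log_iff_exp_le (by positivity)]
          exact h2
        rw [div_le_iff₀ hη] at h3
        linarith only [h3]

end Pool.Agent.Y851.PU
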