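import Pool.Agent.Y851.PT.P12

/-! The first absolute moment of sums over tuples. -/

set_option autoImplicit false

namespace Pool.Agent.Y851.PU
open Finset Filter
open Pool.Agent.Y851.PT
open Pool.Agent.Y851.PS

/-- many large values -/
lemma pz {α : Type} (A : Finset α) (f : α → ℝ) (V δ : ℝ) (hV : 0 < V) (hδ : 0 < δ) (hδ1 : δ ≤ 1)
    (h1 : (1 - δ / 2) * A.card ≤ ∑ a ∈ A, f a) (h2 : ∑ a ∈ A, f a ^ 2 ≤ V * A.card) :
    δ ^ 2 / (4 * V) * A.card ≤ ((A.filter (fun a => 1 - δ ≤ f a)).card : ℝ) := by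
  classical
  by_cases hA : A.card = 0
  · rw [hA]; simp
  have hA0 : (0 : ℝ) < A.card := by exact_mod_cast Nat.pos_of_ne_zero hA
  obtain ⟨S, hS⟩ : ∃ S, S = A.filter (fun a => 1 - δ ≤ f a) := ⟨_, rfl⟩
  rw [← hS]
  have h3 : ∑ a ∈ A, f a ≤ ∑ a ∈ S, f a + (1 - δ) * A.card := by
    rw [hS, ← sum_filter_add_sum_filter_not A (fun a => 1 - δ ≤ f a)]
    have h4 : ∑ a ∈ A.filter (fun a => ¬ 1 - δ ≤ f a), f a ≤ (1 - δ) * A.card := by
      calc ∑ a ∈ A.filter (fun a => ¬ 1 - δ ≤ f a), f a ≤ ∑ _a ∈ A.filter (fun a => ¬ 1 - δ ≤ f a), (1 - δ) := by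
            apply sum_le_sum
            intro a ha
            rw [mem_filter, not_le] at ha
            exact ha.2.le
        _ = ((A.filter (fun a => ¬ 1 - δ ≤ f a)).card : ℝ) * (1 - δ) := by rw [sum_const, nsmul_eq_mul]
        _ ≤ A.card * (1 - δ) := by
            apply mul_le_mul_of_nonneg_right _ (by linarith only [hδ1])
            exact_mod_cast card_le_card (filter_subset _ _)
        _ = (1 - δ) * A.card := mul_comm _ _
    linarith only [h4]
  have h4 : δ / 2 * A.card ≤ ∑ a ∈ S, f a := by linarith only [h1, h3]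
  have h5 : (∑ a ∈ S, f a) ^ 2 ≤ S.card * ∑ a ∈ S, f a ^ 2 := sq_sum_le_card_mul_sum_sq
  have h6 : ∑ a ∈ S, f a ^ 2 ≤ V * A.card := by
    refine le_trans (sum_le_sum_of_subset_of_nonneg ?_ fun a _ _ => sq_nonneg _) h2
    rw [hS]; exact filter_subset _ _
  have h7 : (δ / 2 * A.card) ^ 2 ≤ S.card * (V * A.card) :=
    (pow_le_pow_left₀ (by positivity) h4 2).trans (h5.trans (mul_le_mul_of_nonneg_left h6 (Nat.cast_nonneg _)))
  have h8 : (V * (A.card : ℝ)) * (δ ^ 2 / (4 * V) * A.card) ≤ (V * A.card) * S.card := by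
    calc (V * (A.card : ℝ)) * (δ ^ 2 / (4 * V) * A.card) = (δ / 2 * A.card) ^ 2 := by
          field_simp
          norm_num
      _ ≤ S.card * (V * A.card) := h7
      _ = (V * A.card) * S.card := mul_comm _ _
  exact le_of_mul_le_mul_left h8 (by positivity)

/-- the cut norm and a class -/
lemma cut_class {α β : Type} {A : Finset α} {C : Finset β} {Z : α → β → ℝ} {δ : ℝ} (h : Cut A C Z δ) (p : α → Prop) [DecidablePred p] :
    ∑ c ∈ C, |∑ a ∈ A.filter p, (Z a c - 1)| ≤ 2 * (δ * (A.card * C.card)) := by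
  have h1 := cut_abs h (fun a => if p a then (1 : ℝ) else 0) 1 (by norm_num) (fun a _ => by split_ifs <;> norm_num)
    (fun a _ => by split_ifs <;> norm_num)
  have e : ∀ c ∈ C, |∑ a ∈ A, (if p a then (1 : ℝ) else 0) * (Z a c - 1)| = |∑ a ∈ A.filter p, (Z a c - 1)| := by
    intro c _
    rw [sum_filter]
    congr 1
    apply sum_congr rfl
    intro a _
    split_ifs
    · rw [one_mul]
    · rw [zero_mul]
  rw [sum_congr rfl e] at h1
  refine h1.trans (le_of_eq ?_)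
  ring

/-- **first absolute moment** -/
theorem lln {α β : Type} (M ε : ℝ) (hM : 1 ≤ M) (hε : 0 < ε) (n : ℕ) (hn1 : 1 ≤ n) (hn : 4 * (M + 1) / ε ^ 2 ≤ n) (A : Finset α) (C : Finset β)
    (W : α → β → ℝ) (hW : ∀ a ∈ A, ∀ c ∈ C, 0 ≤ W a c) (hcut : Cut A C W (ε / 4))
    (hM2 : ∑ a ∈ A, ∑ c ∈ C, W a c ^ 2 ≤ M * (A.card * C.card)) (p : α → Prop) [DecidablePred p] :
    ∑ y ∈ Fintype.piFinset (fun _ : Fin n => A), ∑ c ∈ C, |∑ j ∈ univ.filter (fun j => p (y j)), (W (y j) c - 1)| ≤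
      ε * n * (C.card * (A.card : ℝ) ^ n) := by
  have hn0 : (0 : ℝ) < n := by exact_mod_cast hn1
  rw [div_le_iff₀ (by positivity)] at hn
  by_cases hA : A.card = 0
  · have : Fintype.piFinset (fun _ : Fin n => A) = ∅ := by
      rw [← card_eq_zero, Fintype.card_piFinset, prod_const, Finset.card_univ, Fintype.card_fin, hA]
      exact zero_pow (by omega)
    rw [this, sum_empty]
    positivity
  have hA0 : (0 : ℝ) < A.card := by exact_mod_cast Nat.pos_of_ne_zero hA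
  obtain ⟨N, hN⟩ : ∃ N : ℝ, N = A.card := ⟨_, rfl⟩
  rw [← hN] at hA0 hM2 ⊢
  have hC0 : (0 : ℝ) ≤ C.card := Nat.cast_nonneg _
  have hcardn : ((Fintype.piFinset (fun _ : Fin n => A)).card : ℝ) = N ^ n := by
    rw [Fintype.card_piFinset, prod_const, Finset.card_univ, Fintype.card_fin, hN]
    push_cast
    rfl
  obtain ⟨v, hv⟩ : ∃ v : β → α → ℝ, ∀ c a, v c a = if p a then W a c - 1 else 0 := ⟨_, fun _ _ => rfl⟩
  obtain ⟨μ, hμ⟩ : ∃ μ : β → ℝ, ∀ c, μ c = (∑ a ∈ A, v c a) / N := ⟨_, fun _ => rfl⟩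
  have e0 : ∀ (y : Fin n → α) (c : β), ∑ j ∈ univ.filter (fun j => p (y j)), (W (y j) c - 1) = ∑ j, v c (y j) := by
    intro y c
    rw [sum_filter]
    exact sum_congr rfl fun j _ => (hv c (y j)).symm
  simp_rw [e0]
  rw [sum_comm]
  -- each c
  have hT : ∀ c ∈ C, ∑ y ∈ Fintype.piFinset (fun _ : Fin n => A), (∑ j, (v c (y j) - μ c)) ^ 2 ≤
      n * N ^ n / N * (∑ a ∈ A, W a c ^ 2 + N) := by
    intro c hc
    have h1 := (sq_tuples A (fun a => v c a - μ c) n).2
    rw [← hN] at h1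
    have h2 : ∑ a ∈ A, (v c a - μ c) = 0 := by
      rw [sum_sub_distrib, sum_const, nsmul_eq_mul, ← hN, hμ]
      field_simp
      ring
    rw [h2] at h1
    have h3 : ∑ a ∈ A, (v c a - μ c) ^ 2 ≤ ∑ a ∈ A, W a c ^ 2 + N := by
      have h4 : ∑ a ∈ A, (v c a - μ c) ^ 2 = ∑ a ∈ A, v c a ^ 2 - N * μ c ^ 2 := by
        have h5 : ∑ a ∈ A, v c a = N * μ c := by rw [hμ]; field_simp
        have h6 : ∀ a ∈ A, (v c a - μ c) ^ 2 = v c a ^ 2 - 2 * μ c * v c a + μ c ^ 2 := fun a _ => by ring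
        rw [sum_congr rfl h6, sum_add_distrib, sum_sub_distrib, ← mul_sum, h5, sum_const, nsmul_eq_mul, ← hN]
        ring
      have h5 : ∑ a ∈ A, v c a ^ 2 ≤ ∑ a ∈ A, (W a c ^ 2 + 1) := by
        apply sum_le_sum
        intro a ha
        have h6 := hW a ha c hc
        rw [hv]
        split_ifs
        · have e : (W a c - 1) ^ 2 = W a c ^ 2 + 1 - 2 * W a c := by ring
          rw [e]; linarith only [h6]
        · have := sq_nonneg (W a c)
          rw [zero_pow two_ne_zero]; linarith only [this]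
      rw [sum_add_distrib, sum_const, nsmul_eq_mul, mul_one, ← hN] at h5
      have h6 : 0 ≤ N * μ c ^ 2 := by positivity
      linarith only [h4, h5, h6]
    have h4 : N ^ 2 * ∑ y ∈ Fintype.piFinset (fun _ : Fin n => A), (∑ j, (v c (y j) - μ c)) ^ 2 ≤
        N ^ 2 * (n * N ^ n / N * (∑ a ∈ A, W a c ^ 2 + N)) := by
      rw [h1]
      have e : N ^ 2 * (n * N ^ n / N * (∑ a ∈ A, W a c ^ 2 + N)) = n * N ^ (n + 1) * (∑ a ∈ A, W a c ^ 2 + N) := by
        field_simp
        ring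
      rw [e]
      have h5 : (n : ℝ) * N ^ (n + 1) * ∑ a ∈ A, (v c a - μ c) ^ 2 ≤ n * N ^ (n + 1) * (∑ a ∈ A, W a c ^ 2 + N) :=
        mul_le_mul_of_nonneg_left h3 (by positivity)
      have h6 : (n : ℝ) * (n - 1) * N ^ n * (0 : ℝ) ^ 2 = 0 := by ring
      linarith only [h5, h6]
    exact le_of_mul_le_mul_left h4 (by positivity)
  have hc1 : ∀ c ∈ C, ∑ y ∈ Fintype.piFinset (fun _ : Fin n => A), |∑ j, v c (y j)| ≤
      1 / (ε * n) * (n * N ^ n / N * (∑ a ∈ A, W a c ^ 2 + N)) + ε * n / 4 * N ^ n + n * |μ c| * N ^ n := by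
    intro c hc
    have h1 : ∀ y ∈ Fintype.piFinset (fun _ : Fin n => A), |∑ j, v c (y j)| ≤
        1 / (ε * n) * (∑ j, (v c (y j) - μ c)) ^ 2 + ε * n / 4 + n * |μ c| := by
      intro y _
      obtain ⟨x, hx⟩ : ∃ x, x = ∑ j, (v c (y j) - μ c) := ⟨_, rfl⟩
      have e1 : ∑ j, v c (y j) = x + n * μ c := by
        rw [hx, sum_sub_distrib, sum_const, Finset.card_univ, Fintype.card_fin, nsmul_eq_mul]
        ring
      rw [e1, ← hx]
      have h2 : |x + n * μ c| ≤ |x| + n * |μ c| := by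
        refine (abs_add_le _ _).trans ?_
        rw [abs_mul, abs_of_nonneg hn0.le]
      have h3 : |x| ≤ 1 / (ε * n) * x ^ 2 + ε * n / 4 := by
        have h4 : 0 ≤ 1 / (ε * n) * (|x| - ε * n / 2) ^ 2 := by positivity
        have e2 : 1 / (ε * n) * (|x| - ε * n / 2) ^ 2 = 1 / (ε * n) * x ^ 2 + ε * n / 4 - |x| := by
          rw [← sq_abs x]
          field_simp
          ring
        linarith only [h4, e2]
      linarith only [h2, h3]
    refine (sum_le_sum h1).trans ?_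
    rw [sum_add_distrib, sum_add_distrib, ← mul_sum, sum_const, sum_const, nsmul_eq_mul, nsmul_eq_mul, hcardn]
    have h2 := mul_le_mul_of_nonneg_left (hT c hc) (show 0 ≤ 1 / (ε * n) by positivity)
    linarith only [h2]
  refine (sum_le_sum hc1).trans ?_
  rw [sum_add_distrib, sum_add_distrib, ← mul_sum, ← mul_sum, sum_add_distrib, sum_const, sum_const, nsmul_eq_mul, nsmul_eq_mul]
  have g1 : ∑ c ∈ C, ∑ a ∈ A, W a c ^ 2 ≤ M * (N * C.card) := by rw [sum_comm]; exact hM2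
  have g2 : ∑ c ∈ C, n * |μ c| * N ^ n ≤ ε / 2 * n * (C.card * N ^ n) := by
    have h1 := cut_class hcut p
    rw [← hN] at h1
    have h2 : ∀ c ∈ C, n * |μ c| * N ^ n = n * N ^ n / N * |∑ a ∈ A.filter p, (W a c - 1)| := by
      intro c _
      have e1 : ∑ a ∈ A.filter p, (W a c - 1) = N * μ c := by
        rw [hμ, sum_filter, sum_congr rfl fun a _ => (hv c a).symm]
        field_simp
      rw [e1, abs_mul, abs_of_nonneg hA0.le]
      field_simp
    rw [sum_congr rfl h2, ← mul_sum]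
    calc n * N ^ n / N * ∑ c ∈ C, |∑ a ∈ A.filter p, (W a c - 1)| ≤ n * N ^ n / N * (2 * (ε / 4 * (N * C.card))) :=
          mul_le_mul_of_nonneg_left h1 (by positivity)
      _ = ε / 2 * n * (C.card * N ^ n) := by field_simp; norm_num
  have g3 : 1 / (ε * n) * (n * N ^ n / N * (∑ c ∈ C, ∑ a ∈ A, W a c ^ 2 + C.card * N)) ≤ ε / 4 * n * (C.card * N ^ n) := by
    have h1 : ∑ c ∈ C, ∑ a ∈ A, W a c ^ 2 + C.card * N ≤ (M + 1) * (N * C.card) := by linarith only [g1]
    calc 1 / (ε * n) * (n * N ^ n / N * (∑ c ∈ C, ∑ a ∈ A, W a c ^ 2 + C.card * N))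
        ≤ 1 / (ε * n) * (n * N ^ n / N * ((M + 1) * (N * C.card))) :=
          mul_le_mul_of_nonneg_left (mul_le_mul_of_nonneg_left h1 (by positivity)) (by positivity)
      _ = (M + 1) / ε * (C.card * N ^ n) := by field_simp
      _ ≤ ε / 4 * n * (C.card * N ^ n) := by
        apply mul_le_mul_of_nonneg_right _ (by positivity)
        rw [div_le_iff₀ hε]
        have e : ε / 4 * n * ε = n * ε ^ 2 / 4 := by ring
        rw [e]; linarith only [hn]
  linarith only [g2, g3]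

end Pool.Agent.Y851.PU
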