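import Pool.Agent.Y851.PU.Q4
import Pool.Agent.Y851.PU.Q5

/-! All lengths at once. -/

set_option autoImplicit false

namespace Pool.Agent.Y851.PU
open Finset Filter
open Pool.Agent.Y851.PT
open Pool.Agent.Y851.PS

lemma params (β σ lam : ℝ) (hβ : 0 < β) (hβ1 : β ≤ 1) (hσ : 0 < σ) (hσ1 : σ ≤ 1) (hlam : 0 < lam) : ∃ (η ζ : ℝ) (Q : ℕ),
    0 < η ∧ η ≤ 1 / 4 ∧ 0 < ζ ∧ ζ ≤ 1 ∧ 1 / (η * β) ≤ Q ∧ (Q : ℝ) + 2 ≤ ζ / η ^ 2 ∧ ((Q : ℝ) + 1) * (η ^ 2 * lam) ≤ 1 ∧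
    (1 + η) ^ 2 / (1 - η) * (1 + ζ) ≤ 1 + σ ∧ (1 + η) ^ 2 / (1 - η) * (1 + ζ) ≤ 2 ∧
    1 - σ ≤ 1 / (1 + η) * ((1 - η) / (1 + η) - η ^ 2) := by
  obtain ⟨η, hη⟩ : ∃ η, η = min (β * σ / 64) (β / (3 * lam)) := ⟨_, rfl⟩
  have hη0 : 0 < η := by rw [hη]; exact lt_min (by positivity) (by positivity)
  have hη1 : η ≤ β * σ / 64 := by rw [hη]; exact min_le_left _ _
  have hη2 : η ≤ β / (3 * lam) := by rw [hη]; exact min_le_right _ _
  have hβσ : β * σ ≤ σ := by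
    calc β * σ ≤ 1 * σ := mul_le_mul_of_nonneg_right hβ1 hσ.le
      _ = σ := one_mul σ
  have hη3 : η ≤ σ / 64 := by linarith only [hη1, hβσ]
  have hη4 : η ≤ 1 / 64 := by linarith only [hη3, hσ1]
  obtain ⟨ζ, hζ⟩ : ∃ ζ, ζ = 4 * η / β := ⟨_, rfl⟩
  have hζ0 : 0 < ζ := by rw [hζ]; positivity
  have hζ1 : ζ ≤ σ / 16 := by
    rw [hζ, div_le_iff₀ hβ]
    linarith only [hη1]
  have hηβ : 0 < η * β := mul_pos hη0 hβ
  have hηβ1 : η * β ≤ 1 := by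
    calc η * β ≤ 1 * 1 := mul_le_mul (by linarith only [hη4]) hβ1 hβ.le zero_le_one
      _ = 1 := one_mul 1
  have h1 : 1 ≤ 1 / (η * β) := by rw [le_div_iff₀ hηβ, one_mul]; exact hηβ1
  have hQ1 := Nat.le_ceil (1 / (η * β))
  have hQ2 := Nat.ceil_lt_add_one (show 0 ≤ 1 / (η * β) by positivity)
  have hη5 : η ^ 2 ≤ η := by
    have : η ^ 2 = η * η := by ring
    rw [this]
    calc η * η ≤ η * 1 := mul_le_mul_of_nonneg_left (by linarith only [hη4]) hη0.le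
      _ = η := mul_one η
  have hup : (1 + η) ^ 2 / (1 - η) * (1 + ζ) ≤ 1 + σ := by
    rw [div_mul_eq_mul_div, div_le_iff₀ (by linarith only [hη4])]
    have h2 : (1 + η) ^ 2 ≤ 1 + 3 * η := by
      have : (1 + η) ^ 2 = 1 + 2 * η + η ^ 2 := by ring
      linarith only [this, hη5]
    have h3 : (1 + η) ^ 2 * (1 + ζ) ≤ (1 + 3 * η) * (1 + ζ) := mul_le_mul_of_nonneg_right h2 (by linarith only [hζ0])
    have h4 : η * ζ ≤ η * 1 := mul_le_mul_of_nonneg_left (by linarith only [hζ1, hσ1]) hη0.le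
    have h5 : σ * η ≤ 1 * η := mul_le_mul_of_nonneg_right hσ1 hη0.le
    have e1 : (1 + 3 * η) * (1 + ζ) = 1 + 3 * η + ζ + 3 * (η * ζ) := by ring
    have e2 : (1 + σ) * (1 - η) = 1 + σ - η - σ * η := by ring
    rw [e2]
    linarith only [h3, h4, h5, e1, hζ1, hη3, hσ]
  refine ⟨η, ζ, ⌈1 / (η * β)⌉₊, hη0, by linarith only [hη4], hζ0, by linarith only [hζ1, hσ1], hQ1, ?_, ?_, hup, by linarith only [hup, hσ1], ?_⟩
  · have e : ζ / η ^ 2 = 4 * (1 / (η * β)) := by rw [hζ]; field_simp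
    rw [e]
    linarith only [hQ2, h1]
  · have h2 : ((⌈1 / (η * β)⌉₊ : ℝ) + 1) ≤ 3 * (1 / (η * β)) := by linarith only [hQ2, h1]
    calc ((⌈1 / (η * β)⌉₊ : ℝ) + 1) * (η ^ 2 * lam) ≤ 3 * (1 / (η * β)) * (η ^ 2 * lam) :=
          mul_le_mul_of_nonneg_right h2 (by positivity)
      _ = 3 * lam / β * η := by field_simp
      _ ≤ 3 * lam / β * (β / (3 * lam)) := mul_le_mul_of_nonneg_left hη2 (by positivity)
      _ = 1 := by field_simp
  · have h1η : 0 < 1 + η := by linarith only [hη0]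
    have e : 1 / (1 + η) * ((1 - η) / (1 + η) - η ^ 2) = ((1 - η) - η ^ 2 * (1 + η)) / (1 + η) ^ 2 := by field_simp
    rw [e, le_div_iff₀ (pow_pos h1η 2)]
    have e1 : (1 - σ) * (1 + η) ^ 2 = (1 + 2 * η + η ^ 2) - σ * (1 + η) ^ 2 := by ring
    have h2 : σ ≤ σ * (1 + η) ^ 2 := by
      have h3 : 1 ≤ (1 + η) ^ 2 := one_le_pow₀ (by linarith only [hη0])
      calc σ = σ * 1 := (mul_one σ).symm
        _ ≤ σ * (1 + η) ^ 2 := mul_le_mul_of_nonneg_left h3 hσ.le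
    have h4 : η ^ 2 * (1 + η) ≤ 2 * η := by
      calc η ^ 2 * (1 + η) ≤ η * 2 := mul_le_mul hη5 (by linarith only [hη4]) h1η.le hη0.le
        _ = 2 * η := by ring
    rw [e1]
    linarith only [h2, h4, hη5, hη3, hσ, hη0]

lemma cut_image {α β γ : Type} [DecidableEq β] {A : Finset α} {C : Finset γ} {Z : α → β → ℝ} {δ : ℝ} (f : γ → β) (hf : Function.Injective f)
    (h : Cut A (C.image f) Z δ) : Cut A C (fun a k => Z a (f k)) δ := by
  intro A' hA' C' hC'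
  have h1 := h A' hA' (C'.image f) (image_subset_image hC')
  rw [card_image_of_injective _ hf] at h1
  refine le_trans (le_of_eq ?_) h1
  congr 1
  apply sum_congr rfl
  intro a _
  rw [sum_image fun x _ y _ hxy => hf hxy]

/-- the facts at the net -/
theorem net_facts (θ lam β δ η : ℝ) (hθ : 0 < θ) (hlam : 0 < lam) (hβ : 0 < β) (hδ : 0 < δ) (hη : 0 < η) (hη1 : η ≤ 1 / 4) :
    ∃ M : ℝ, 1 ≤ M ∧ ∀ δ' : ℝ, 0 < δ' → ∀ᶠ X : ℝ in atTop, ∀ A : Finset ℕ, Adm δ θ X A → (∀ a ∈ A, β * X ^ θ ≤ (a : ℝ)) →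
    0 < η * (lam * Real.log X) ∧
    Cut A (Icc 1 ⌊X / (η * (η * (lam * Real.log X)))⌋₊)
      (fun (a k : ℕ) => ZH (η * (lam * Real.log X)) (a * (k * (η * (η * (lam * Real.log X) / X ^ θ))))) δ' ∧
    ∑ a ∈ A, ∑ k ∈ Icc 1 ⌊X / (η * (η * (lam * Real.log X)))⌋₊,
      ZH (η * (lam * Real.log X)) (a * (k * (η * (η * (lam * Real.log X) / X ^ θ)))) ^ 2 ≤
      M * (A.card * (Icc 1 ⌊X / (η * (η * (lam * Real.log X)))⌋₊).card) := by
  obtain ⟨M, hM, hb⟩ := base2 θ (η * lam) (1 / 2) δ 12 β hθ (by positivity) (by norm_num) hδ (by norm_num) hβ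
  refine ⟨M, hM, fun δ' hδ' => ?_⟩
  have hev : ∀ᶠ X : ℝ in atTop, η * (lam * Real.log X) ≤ X ^ (1 - 1 / 2 : ℝ) := by
    have h := (isLittleO_log_rpow_atTop (show (0 : ℝ) < 1 - 1 / 2 by norm_num)).bound (show 0 < 1 / (η * lam) by positivity)
    filter_upwards [h, eventually_ge_atTop 1] with X hX hX1
    have h1 := Real.log_nonneg hX1
    rw [Real.norm_eq_abs, Real.norm_eq_abs, abs_of_nonneg h1, abs_of_nonneg (by positivity)] at hX
    calc η * (lam * Real.log X) = η * lam * Real.log X := by ring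
      _ ≤ η * lam * (1 / (η * lam) * X ^ (1 - 1 / 2 : ℝ)) := mul_le_mul_of_nonneg_left hX (by positivity)
      _ = X ^ (1 - 1 / 2 : ℝ) := by field_simp
  have hev2 : ∀ᶠ X : ℝ in atTop, 2 * (η * (η * (lam * Real.log X))) ≤ X := by
    have h := Real.isLittleO_log_id_atTop.bound (show 0 < 1 / (2 * η * η * lam) by positivity)
    filter_upwards [h, eventually_ge_atTop 1] with X hX hX1
    have h1 := Real.log_nonneg hX1
    simp only [id, Real.norm_eq_abs] at hX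
    rw [abs_of_nonneg h1, abs_of_nonneg (by linarith only [hX1])] at hX
    calc 2 * (η * (η * (lam * Real.log X))) = 2 * η * η * lam * Real.log X := by ring
      _ ≤ 2 * η * η * lam * (1 / (2 * η * η * lam) * X) := mul_le_mul_of_nonneg_left hX (by positivity)
      _ = X := by field_simp
  filter_upwards [hb δ' hδ', hev, hev2, eventually_gt_atTop 1] with X h1 h2 h3 h4 A hA hAβ
  have hX0 : 0 < X := by linarith only [h4]
  have hlog : 0 < Real.log X := Real.log_pos h4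
  have hh0 : 0 < η * (lam * Real.log X) := by positivity
  have hsp := net_spread X (η * (lam * Real.log X)) θ η 1 hX0 hh0 hη (by linarith only [hη1]) (by linarith only [hη]) (by norm_num)
    (by rw [le_div_iff₀ (by positivity)]; exact h3)
  rw [one_mul] at hsp
  have hinj : Function.Injective (fun k : ℕ => (k : ℝ) * (η * (η * (lam * Real.log X) / X ^ θ))) := by
    intro k k' h
    have h5 : (k : ℝ) * (η * (η * (lam * Real.log X) / X ^ θ)) = k' * (η * (η * (lam * Real.log X) / X ^ θ)) := h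
    have h6 : 0 < η * (η * (lam * Real.log X) / X ^ θ) := by positivity
    exact_mod_cast mul_right_cancel₀ h6.ne' h5
  obtain ⟨_, hcut, hM2⟩ := h1 (η * (lam * Real.log X)) (by
    have : η * lam * Real.log X = η * (lam * Real.log X) := by ring
    rw [this]) h2 A _ hA hAβ hsp
  refine ⟨hh0, cut_image _ hinj hcut, ?_⟩
  rw [card_image_of_injective _ hinj] at hM2
  refine le_trans (le_of_eq ?_) hM2
  apply sum_congr rfl
  intro a _
  rw [sum_image fun x _ y _ hxy => hinj hxy]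

lemma adm_pos {δ θ X : ℝ} {A : Finset ℕ} (hδ : 0 < δ) (hX : 1 < X) (hA : Adm δ θ X A) : (0 : ℝ) < A.card := by
  have hX0 : 0 < X := by linarith
  have hlog : 0 < Real.log X := Real.log_pos hX
  rcases hA.2 with h | ⟨_, h⟩
  · exact lt_of_lt_of_le (by positivity) h
  · exact lt_of_lt_of_le (by positivity) h

open Classical in
/-- **All lengths at once**: the average over the whole set. -/
theorem unifA (θ lam ρ β δ : ℝ) (hθ : 0 < θ) (hlam : 0 < lam) (hρ : 0 < ρ) (hρ1 : ρ ≤ 1) (hβ : 0 < β) (hβ1 : β ≤ 1) (hδ : 0 < δ)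
    (hδ1 : δ ≤ 1) : ∃ κ : ℝ, 0 < κ ∧ ∀ᶠ X : ℝ in atTop, ∀ A : Finset ℕ, Adm δ θ X A → (∀ a ∈ A, β * X ^ θ ≤ (a : ℝ)) →
    ∃ U : Finset ℝ, (U.card : ℝ) ≤ δ * (X / Real.log X) ∧ ∀ y : ℝ, 0 < y → y ≤ X ^ (1 - θ) →
      (∀ u ∈ U, ¬ (u ≤ y ∧ y ≤ u + Real.log X / X ^ θ)) → ∀ H : ℝ, lam * Real.log X ≤ H → H ≤ X ^ (1 - ρ) →
      |∑ a ∈ A, ZH H (a * y) - A.card| ≤ δ * A.card ∧
      κ * A.card ≤ ((A.filter (fun a : ℕ => 1 - δ ≤ ZH H (a * y))).card : ℝ) := by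
  obtain ⟨σ, hσ⟩ : ∃ σ, σ = δ / 4 := ⟨_, rfl⟩
  have hσ0 : 0 < σ := by rw [hσ]; positivity
  obtain ⟨η, ζ, Q, hη, hη1, hζ, hζ1, hQ0, hQ, hQl, hF1, hF2, hF3⟩ := params β σ lam hβ hβ1 hσ0 (by rw [hσ]; linarith only [hδ1]) hlam
  obtain ⟨J, hJ⟩ : ∃ J, J = ⌊Real.log (1 / β) / Real.log (1 + η)⌋₊ + 1 := ⟨_, rfl⟩
  have hJ0 : (0 : ℝ) < J := by rw [hJ]; push_cast; positivity
  obtain ⟨M, hM, hnet⟩ := net_facts θ lam β δ η hθ hlam hβ hδ hη hη1
  have hM0 : 0 < M := by linarith only [hM]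
  obtain ⟨M', hM'⟩ : ∃ M', M' = 4 * M / (δ * (η ^ 2 * lam)) := ⟨_, rfl⟩
  have hM'0 : 0 < M' := by rw [hM']; positivity
  obtain ⟨V, hV⟩ : ∃ V, V = 16 / β ^ 2 * M' := ⟨_, rfl⟩
  have hV0 : 0 < V := by rw [hV]; positivity
  obtain ⟨δ', hδ'⟩ : ∃ δ', δ' = δ * σ * (η ^ 2 * lam) / (16 * J ^ 2) := ⟨_, rfl⟩
  have hδ'0 : 0 < δ' := by rw [hδ']; positivity
  refine ⟨δ ^ 2 / (4 * V), by positivity, ?_⟩
  filter_upwards [hnet δ' hδ'0, geo_cover θ lam ρ β η ζ δ Q hlam hρ hρ1 hβ hη hη1 hζ hζ1 hδ hQ0 hQ hQl, eventually_gt_atTop 1]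
    with X h1 h2 h3 A hA hAβ
  have hX0 : 0 < X := by linarith only [h3]
  have hlog : 0 < Real.log X := Real.log_pos h3
  have hA0 := adm_pos hδ h3 hA
  obtain ⟨hh0, hcut, hM2⟩ := h1 A hA hAβ
  obtain ⟨K, hK⟩ : ∃ K, K = ⌊X / (η * (η * (lam * Real.log X)))⌋₊ := ⟨_, rfl⟩
  obtain ⟨l, hl⟩ : ∃ l, l = η * (η * (lam * Real.log X) / X ^ θ) := ⟨_, rfl⟩
  obtain ⟨h, hh⟩ : ∃ h, h = η * (lam * Real.log X) := ⟨_, rfl⟩
  rw [← hK, ← hl, ← hh] at hcut hM2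
  simp_rw [← hl, ← hh] at h2
  have hKle : (K : ℝ) ≤ X / Real.log X / (η ^ 2 * lam) := by
    have h4 : (K : ℝ) ≤ X / (η * (η * (lam * Real.log X))) := by rw [hK]; exact Nat.floor_le (by positivity)
    refine h4.trans (le_of_eq ?_)
    field_simp
  have hcardK : ((Icc 1 K).card : ℝ) = K := by rw [Nat.card_Icc]; simp
  rw [hcardK] at hM2
  -- bad points
  obtain ⟨t, ht⟩ : ∃ t, t = σ * A.card / (2 * J) := ⟨_, rfl⟩
  have ht0 : 0 < t := by rw [ht]; positivity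
  obtain ⟨E, hE⟩ : ∃ E : ℕ → ℕ → ℝ, ∀ i k, E i k = |∑ a ∈ A.filter (fun a : ℕ => cls (X ^ θ) β η (a : ℝ) = i), (ZH h (a * (k * l)) - 1)| :=
    ⟨_, fun _ _ => rfl⟩
  obtain ⟨G, hG⟩ : ∃ G : ℕ → ℝ, ∀ k, G k = ∑ a ∈ A, ZH h (a * (k * l)) ^ 2 := ⟨_, fun _ => rfl⟩
  have hB1 : ∀ i, (((Icc 1 K).filter (Ld (E i) t)).card : ℝ) ≤ 4 * J * δ' / σ * K := by
    intro i
    have h4 := maximal (E i) (fun k => by rw [hE]; exact abs_nonneg _) t ht0 K (2 * (δ' * (A.card * K))) (by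
      simp_rw [hE]
      have := cut_class hcut (fun a : ℕ => cls (X ^ θ) β η (a : ℝ) = i)
      rw [hcardK] at this
      exact this)
    refine h4.trans (le_of_eq ?_)
    rw [ht]
    field_simp
    ring
  have hB2 : (((Icc 1 K).filter (Ld G (M' * A.card))).card : ℝ) ≤ M / M' * K := by
    have h4 := maximal G (fun k => by rw [hG]; exact sum_nonneg fun a _ => sq_nonneg _) (M' * A.card) (by positivity) K (M * (A.card * K)) (by
      simp_rw [hG]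
      rw [sum_comm]
      exact hM2)
    refine h4.trans (le_of_eq ?_)
    field_simp
  obtain ⟨Bad, hBad⟩ : ∃ Bad : Finset ℕ, Bad = (range J).biUnion (fun i => (Icc 1 K).filter (Ld (E i) t)) ∪ (Icc 1 K).filter (Ld G (M' * A.card)) :=
    ⟨_, rfl⟩
  have hBadc : (Bad.card : ℝ) ≤ δ / 2 * (X / Real.log X) := by
    have g1 : (Bad.card : ℝ) ≤ ∑ i ∈ range J, (((Icc 1 K).filter (Ld (E i) t)).card : ℝ) + (((Icc 1 K).filter (Ld G (M' * A.card))).card : ℝ) := by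
      rw [hBad]
      have := (card_union_le ((range J).biUnion (fun i => (Icc 1 K).filter (Ld (E i) t))) ((Icc 1 K).filter (Ld G (M' * A.card)))).trans
        (Nat.add_le_add_right card_biUnion_le _)
      exact_mod_cast this
    have g2 : ∑ i ∈ range J, (((Icc 1 K).filter (Ld (E i) t)).card : ℝ) ≤ J * (4 * J * δ' / σ * K) := by
      refine (sum_le_sum fun i _ => hB1 i).trans (le_of_eq ?_)
      rw [sum_const, card_range, nsmul_eq_mul]
    have g3 : J * (4 * J * δ' / σ * K) ≤ δ / 4 * (X / Real.log X) := by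
      calc J * (4 * J * δ' / σ * K) = 4 * J ^ 2 * δ' / σ * K := by ring
        _ ≤ 4 * J ^ 2 * δ' / σ * (X / Real.log X / (η ^ 2 * lam)) := mul_le_mul_of_nonneg_left hKle (by positivity)
        _ = δ / 4 * (X / Real.log X) := by rw [hδ']; field_simp; norm_num
    have g4 : M / M' * K ≤ δ / 4 * (X / Real.log X) := by
      calc M / M' * K ≤ M / M' * (X / Real.log X / (η ^ 2 * lam)) := mul_le_mul_of_nonneg_left hKle (by positivity)
        _ = δ / 4 * (X / Real.log X) := by rw [hM']; field_simp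
    linarith only [g1, g2, g3, g4, hB2]
  obtain ⟨U, hU1, hU2⟩ := h2 Bad hBadc
  refine ⟨U, hU1, fun y hy0 hyT hyU => ?_⟩
  obtain ⟨k1, hk1, hk1K, hk1B, hgeo⟩ := hU2 y hy0 hyT hyU
  have hK' : K = ⌊X / (η * h)⌋₊ := by rw [hK, hh]
  rw [← hK'] at hk1K
  have hmem : k1 ∈ Icc 1 K := mem_Icc.2 ⟨hk1, hk1K⟩
  rw [hBad, mem_union, not_or, mem_biUnion, mem_filter] at hk1B
  have hn1 : ∀ i < J, ¬ Ld (E i) t k1 := fun i hi hcon =>
    hk1B.1 ⟨i, mem_range.2 hi, mem_filter.2 ⟨hmem, hcon⟩⟩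
  have hn2 : ¬ Ld G (M' * A.card) k1 := fun hcon => hk1B.2 ⟨hmem, hcon⟩
  intro H hH1 hH2
  have g := hgeo H hH1 hH2
  have hm1 := family g A (fun a : ℕ => (a : ℝ)) σ t J hJ hAβ (fun a ha => (hA.1 a ha).2) ht0.le (by
    intro i hi m hm1 hm2
    have := not_Ld (hn1 i hi) hm1 hm2
    simp_rw [hE] at this
    exact this) hF1 hF2 hF3 hζ1
  have hm2 := second g A (fun a : ℕ => (a : ℝ)) (M' * A.card) hAβ (fun a ha => (hA.1 a ha).2) hβ1 (by positivity) (by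
    intro m hm1 hm2
    have := not_Ld hn2 hm1 hm2
    simp_rw [hG] at this
    exact this) hζ1
  have e1 : σ * (A.card : ℝ) + 2 * J * t = δ / 2 * A.card := by
    rw [ht, hσ]
    field_simp
    norm_num
  rw [e1] at hm1
  constructor
  · refine hm1.trans ?_
    apply mul_le_mul_of_nonneg_right _ hA0.le
    linarith only [hδ]
  · apply pz A (fun a : ℕ => ZH H (a * y)) V δ hV0 hδ hδ1
    · have h5 := (abs_le.1 hm1).1
      have e2 : (1 - δ / 2) * (A.card : ℝ) = A.card - δ / 2 * A.card := by ring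
      rw [e2]
      linarith only [h5]
    · refine hm2.trans (le_of_eq ?_)
      rw [hV]; ring

open Classical in
/-- **All lengths at once**: boundedly many multiples. -/
theorem unifB (θ lam ρ β δ : ℝ) (hθ : 0 < θ) (hlam : 0 < lam) (hρ : 0 < ρ) (hρ1 : ρ ≤ 1) (hβ : 0 < β) (hβ1 : β ≤ 1) (hδ : 0 < δ)
    (hδ1 : δ ≤ 1) : ∃ n₀ : ℕ, 1 ≤ n₀ ∧ ∀ n : ℕ, n₀ ≤ n → ∀ᶠ X : ℝ in atTop, ∀ A : Finset ℕ, Adm δ θ X A → (∀ a ∈ A, β * X ^ θ ≤ (a : ℝ)) →
    (((Fintype.piFinset (fun _ : Fin n => A)).filter (fun a => ¬ ∃ U : Finset ℝ, (U.card : ℝ) ≤ δ * (X / Real.log X) ∧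
      ∀ y : ℝ, 0 < y → y ≤ X ^ (1 - θ) → (∀ u ∈ U, ¬ (u ≤ y ∧ y ≤ u + Real.log X / X ^ θ)) →
      ∀ H : ℝ, lam * Real.log X ≤ H → H ≤ X ^ (1 - ρ) → |∑ j, ZH H (a j * y) - n| ≤ δ * n)).card : ℝ) ≤ δ * (A.card : ℝ) ^ n := by
  obtain ⟨σ, hσ⟩ : ∃ σ, σ = δ / 4 := ⟨_, rfl⟩
  have hσ0 : 0 < σ := by rw [hσ]; positivity
  obtain ⟨η, ζ, Q, hη, hη1, hζ, hζ1, hQ0, hQ, hQl, hF1, hF2, hF3⟩ := params β σ lam hβ hβ1 hσ0 (by rw [hσ]; linarith only [hδ1]) hlam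
  obtain ⟨J, hJ⟩ : ∃ J, J = ⌊Real.log (1 / β) / Real.log (1 + η)⌋₊ + 1 := ⟨_, rfl⟩
  have hJ0 : (0 : ℝ) < J := by rw [hJ]; push_cast; positivity
  obtain ⟨M, hM, hnet⟩ := net_facts θ lam β δ η hθ hlam hβ hδ hη hη1
  have hM0 : 0 < M := by linarith only [hM]
  obtain ⟨ε, hε⟩ : ∃ ε, ε = δ * σ * (η ^ 2 * lam) / (4 * J ^ 2) := ⟨_, rfl⟩
  have hε0 : 0 < ε := by rw [hε]; positivity
  obtain ⟨δ₅, hδ₅⟩ : ∃ δ₅, δ₅ = ε * δ / J := ⟨_, rfl⟩
  have hδ₅0 : 0 < δ₅ := by rw [hδ₅]; positivity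
  refine ⟨⌈4 * (M + 1) / δ₅ ^ 2⌉₊ + 1, by omega, fun n hn => ?_⟩
  have hn1 : 1 ≤ n := by omega
  have hn0 : (0 : ℝ) < n := by exact_mod_cast hn1
  have hnM : 4 * (M + 1) / δ₅ ^ 2 ≤ n := by
    have h1 := Nat.le_ceil (4 * (M + 1) / δ₅ ^ 2)
    have h2 : ((⌈4 * (M + 1) / δ₅ ^ 2⌉₊ : ℕ) : ℝ) ≤ n := by exact_mod_cast (by omega : ⌈4 * (M + 1) / δ₅ ^ 2⌉₊ ≤ n)
    exact h1.trans h2
  have hev2 : ∀ᶠ X : ℝ in atTop, η * (η * (lam * Real.log X)) ≤ X := by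
    have h := Real.isLittleO_log_id_atTop.bound (show 0 < 1 / (η * η * lam) by positivity)
    filter_upwards [h, eventually_ge_atTop 1] with X hX hX1
    have h1 := Real.log_nonneg hX1
    simp only [id, Real.norm_eq_abs] at hX
    rw [abs_of_nonneg h1, abs_of_nonneg (by linarith only [hX1])] at hX
    calc η * (η * (lam * Real.log X)) = η * η * lam * Real.log X := by ring
      _ ≤ η * η * lam * (1 / (η * η * lam) * X) := mul_le_mul_of_nonneg_left hX (by positivity)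
      _ = X := by field_simp
  filter_upwards [hnet (δ₅ / 4) (by positivity), geo_cover θ lam ρ β η ζ δ Q hlam hρ hρ1 hβ hη hη1 hζ hζ1 hδ hQ0 hQ hQl, eventually_gt_atTop 1, hev2]
    with X h1 h2 h3 hX4 A hA hAβ
  have hX0 : 0 < X := by linarith only [h3]
  have hlog : 0 < Real.log X := Real.log_pos h3
  have hA0 := adm_pos hδ h3 hA
  obtain ⟨hh0, hcut, hM2⟩ := h1 A hA hAβ
  obtain ⟨K, hK⟩ : ∃ K, K = ⌊X / (η * (η * (lam * Real.log X)))⌋₊ := ⟨_, rfl⟩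
  have hK1 : 1 ≤ K := by
    rw [hK]
    apply Nat.le_floor
    rw [Nat.cast_one, le_div_iff₀ (by positivity), one_mul]
    exact hX4
  have hK0 : (0 : ℝ) < K := by exact_mod_cast hK1
  obtain ⟨l, hl⟩ : ∃ l, l = η * (η * (lam * Real.log X) / X ^ θ) := ⟨_, rfl⟩
  obtain ⟨h, hh⟩ : ∃ h, h = η * (lam * Real.log X) := ⟨_, rfl⟩
  rw [← hK, ← hl, ← hh] at hcut hM2
  simp_rw [← hl, ← hh] at h2
  rw [← hh] at hh0
  have hKle : (K : ℝ) ≤ X / Real.log X / (η ^ 2 * lam) := by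
    have h4 : (K : ℝ) ≤ X / (η * (η * (lam * Real.log X))) := by rw [hK]; exact Nat.floor_le (by positivity)
    refine h4.trans (le_of_eq ?_)
    field_simp
  have hcardK : ((Icc 1 K).card : ℝ) = K := by rw [Nat.card_Icc]; simp
  obtain ⟨t, ht⟩ : ∃ t, t = σ * (n : ℝ) / (2 * J) := ⟨_, rfl⟩
  have ht0 : 0 < t := by rw [ht]; positivity
  obtain ⟨F, hF⟩ : ∃ F : ℕ → (Fin n → ℕ) → ℝ, ∀ i y, F i y = ∑ k ∈ Icc 1 K,
      |∑ j ∈ univ.filter (fun j => cls (X ^ θ) β η ((y j : ℕ) : ℝ) = i), (ZH h (y j * (k * l)) - 1)| := ⟨_, fun _ _ => rfl⟩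
  -- few tuples are bad
  have hbad : ∀ i, (((Fintype.piFinset (fun _ : Fin n => A)).filter (fun y => ε * n * K < F i y)).card : ℝ) ≤ δ / J * (A.card : ℝ) ^ n := by
    intro i
    have h4 := lln M δ₅ hM hδ₅0 n hn1 hnM A (Icc 1 K) (fun (a k : ℕ) => ZH h (a * (k * l))) (fun a _ k _ => ZH_nonneg hh0.le _) hcut hM2
      (fun a : ℕ => cls (X ^ θ) β η (a : ℝ) = i)
    rw [hcardK] at h4
    have h5 := markov (Fintype.piFinset (fun _ : Fin n => A)) (F i) (fun y _ => by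
      rw [hF]; exact sum_nonneg fun k _ => abs_nonneg _) (δ₅ * n * (K * (A.card : ℝ) ^ n)) (ε * n * K) (by positivity) (by
        simp_rw [hF]; exact h4) (fun y => ε * n * K < F i y) (fun y _ h => h.le)
    refine h5.trans (le_of_eq ?_)
    rw [hδ₅]
    field_simp
  have hsub : (Fintype.piFinset (fun _ : Fin n => A)).filter (fun a => ¬ ∃ U : Finset ℝ, (U.card : ℝ) ≤ δ * (X / Real.log X) ∧
      ∀ y : ℝ, 0 < y → y ≤ X ^ (1 - θ) → (∀ u ∈ U, ¬ (u ≤ y ∧ y ≤ u + Real.log X / X ^ θ)) →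
      ∀ H : ℝ, lam * Real.log X ≤ H → H ≤ X ^ (1 - ρ) → |∑ j, ZH H (a j * y) - n| ≤ δ * n) ⊆
      (range J).biUnion (fun i => (Fintype.piFinset (fun _ : Fin n => A)).filter (fun y => ε * n * K < F i y)) := by
    intro a ha
    rw [mem_filter] at ha
    obtain ⟨haA, hbd⟩ := ha
    rw [mem_biUnion]
    by_contra hcon
    apply hbd
    have hgood : ∀ i < J, F i a ≤ ε * n * K := by
      intro i hi
      by_contra h4
      push Not at h4
      exact hcon ⟨i, mem_range.2 hi, mem_filter.2 ⟨haA, h4⟩⟩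
    rw [Fintype.mem_piFinset] at haA
    obtain ⟨E, hE⟩ : ∃ E : ℕ → ℕ → ℝ, ∀ i k, E i k = |∑ j ∈ univ.filter (fun j => cls (X ^ θ) β η ((a j : ℕ) : ℝ) = i), (ZH h (a j * (k * l)) - 1)| :=
      ⟨_, fun _ _ => rfl⟩
    have hB1 : ∀ i < J, (((Icc 1 K).filter (Ld (E i) t)).card : ℝ) ≤ 2 * J * ε / σ * K := by
      intro i hi
      have h4 := maximal (E i) (fun k => by rw [hE]; exact abs_nonneg _) t ht0 K (ε * n * K) (by
        simp_rw [hE]
        have := hgood i hi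
        rw [hF] at this
        exact this)
      refine h4.trans (le_of_eq ?_)
      rw [ht]
      field_simp
    obtain ⟨Bad, hBad⟩ : ∃ Bad : Finset ℕ, Bad = (range J).biUnion (fun i => (Icc 1 K).filter (Ld (E i) t)) := ⟨_, rfl⟩
    have hBadc : (Bad.card : ℝ) ≤ δ / 2 * (X / Real.log X) := by
      have g1 : (Bad.card : ℝ) ≤ ∑ i ∈ range J, (((Icc 1 K).filter (Ld (E i) t)).card : ℝ) := by
        rw [hBad]
        exact_mod_cast card_biUnion_le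
      have g2 : ∑ i ∈ range J, (((Icc 1 K).filter (Ld (E i) t)).card : ℝ) ≤ J * (2 * J * ε / σ * K) := by
        refine (sum_le_sum fun i hi => hB1 i (mem_range.1 hi)).trans (le_of_eq ?_)
        rw [sum_const, card_range, nsmul_eq_mul]
      have g3 : J * (2 * J * ε / σ * K) ≤ δ / 2 * (X / Real.log X) := by
        calc J * (2 * J * ε / σ * K) = 2 * J ^ 2 * ε / σ * K := by ring
          _ ≤ 2 * J ^ 2 * ε / σ * (X / Real.log X / (η ^ 2 * lam)) := mul_le_mul_of_nonneg_left hKle (by positivity)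
          _ = δ / 2 * (X / Real.log X) := by rw [hε]; field_simp; norm_num
      linarith only [g1, g2, g3]
    obtain ⟨U, hU1, hU2⟩ := h2 Bad hBadc
    refine ⟨U, hU1, fun y hy0 hyT hyU => ?_⟩
    obtain ⟨k1, hk1, hk1K, hk1B, hgeo⟩ := hU2 y hy0 hyT hyU
    have hK' : K = ⌊X / (η * h)⌋₊ := by rw [hK, hh]
    rw [← hK'] at hk1K
    have hmem : k1 ∈ Icc 1 K := mem_Icc.2 ⟨hk1, hk1K⟩
    rw [hBad, mem_biUnion] at hk1B
    have hn1 : ∀ i < J, ¬ Ld (E i) t k1 := fun i hi hcon =>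
      hk1B ⟨i, mem_range.2 hi, mem_filter.2 ⟨hmem, hcon⟩⟩
    intro H hH1 hH2
    have g := hgeo H hH1 hH2
    have hm1 := family g (univ : Finset (Fin n)) (fun j => ((a j : ℕ) : ℝ)) σ t J hJ (fun j _ => hAβ _ (haA j)) (fun j _ => (hA.1 _ (haA j)).2)
      ht0.le (by
      intro i hi m hm1 hm2
      have := not_Ld (hn1 i hi) hm1 hm2
      simp_rw [hE] at this
      exact this) hF1 hF2 hF3 hζ1
    rw [Finset.card_univ, Fintype.card_fin] at hm1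
    refine hm1.trans ?_
    have e1 : σ * (n : ℝ) + 2 * J * t = δ / 2 * n := by
      rw [ht, hσ]
      field_simp
      norm_num
    rw [e1]
    apply mul_le_mul_of_nonneg_right _ hn0.le
    linarith only [hδ]
  have h5 : (((Fintype.piFinset (fun _ : Fin n => A)).filter (fun a => ¬ ∃ U : Finset ℝ, (U.card : ℝ) ≤ δ * (X / Real.log X) ∧
      ∀ y : ℝ, 0 < y → y ≤ X ^ (1 - θ) → (∀ u ∈ U, ¬ (u ≤ y ∧ y ≤ u + Real.log X / X ^ θ)) →
      ∀ H : ℝ, lam * Real.log X ≤ H → H ≤ X ^ (1 - ρ) → |∑ j, ZH H (a j * y) - n| ≤ δ * n)).card : ℝ) ≤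
      ∑ i ∈ range J, (((Fintype.piFinset (fun _ : Fin n => A)).filter (fun y => ε * n * K < F i y)).card : ℝ) := by
    exact_mod_cast (card_le_card hsub).trans card_biUnion_le
  refine h5.trans ((sum_le_sum fun i _ => hbad i).trans (le_of_eq ?_))
  rw [sum_const, card_range, nsmul_eq_mul]
  field_simp

end Pool.Agent.Y851.PU
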